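import Pool.Agent.Helper27.GP.Two
import Pool.Agent.Helper57.CF.Mat
import Pool.Agent.Helper98.PF.Core

/-!
The gap theorem for simple irreducible Lie algebras of matrices that are skew for a symmetric form.
-/

set_option linter.unusedSectionVars false

open Matrix

namespace MH

variable {n : Type*} [Fintype n] [DecidableEq n]

/-- the adjoint for the form with Gram matrix `G` -/
noncomputable def tG27 (Gi G : Matrix n n ℂ) : Matrix n n ℂ →ₗ[ℂ] Matrix n n ℂ where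
  toFun x := Gi * xᵀ * G
  map_add' x y := by rw [Matrix.transpose_add, mul_add, add_mul]
  map_smul' c x := by
    rw [Matrix.transpose_smul, mul_smul_comm, smul_mul_assoc]
    rfl

theorem tG_apply27 (Gi G x : Matrix n n ℂ) : tG27 Gi G x = Gi * xᵀ * G := rfl

/-- the Lie algebra in the new basis -/
noncomputable def LBB27 (L : Submodule ℂ (Matrix n n ℂ)) (B Bi : Matrix n n ℂ) :
    Submodule ℂ (Matrix n n ℂ) where
  carrier := {x | cj Bi B x ∈ L}
  add_mem' := by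
    intro x y hx hy
    change cj Bi B (x + y) ∈ L
    rw [cj_add]
    exact L.add_mem hx hy
  zero_mem' := by
    change cj Bi B 0 ∈ L
    rw [cj_zero]
    exact L.zero_mem
  smul_mem' := by
    intro c x hx
    change cj Bi B (c • x) ∈ L
    rw [cj_smul]
    exact L.smul_mem c hx

theorem mem_LBB27 {L : Submodule ℂ (Matrix n n ℂ)} {B Bi x : Matrix n n ℂ} :
    x ∈ LBB27 L B Bi ↔ cj Bi B x ∈ L := Iff.rfl

/-- a matrix that commutes with an irreducible set of matrices is a scalar -/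
theorem schur_of27 [Nonempty n] (L : Submodule ℂ (Matrix n n ℂ))
    (hirr : ∀ W : Submodule ℂ (n → ℂ), (∀ X ∈ L, ∀ w ∈ W, X *ᵥ w ∈ W) → W = ⊥ ∨ W = ⊤)
    {T : Matrix n n ℂ} (hT : ∀ X ∈ L, T * X = X * T) : ∃ c : ℂ, T = c • (1 : Matrix n n ℂ) := by
  obtain ⟨c, hc⟩ := Module.End.exists_eigenvalue (Matrix.toLin' T)
  refine ⟨c, ?_⟩
  rcases hirr (Module.End.eigenspace (Matrix.toLin' T) c) (by
    intro X hX w hw
    rw [Module.End.mem_eigenspace_iff, Matrix.toLin'_apply] at hw ⊢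
    rw [Matrix.mulVec_mulVec, hT X hX, ← Matrix.mulVec_mulVec, hw, Matrix.mulVec_smul]) with h | h
  · exact absurd h hc
  · apply Dat.mat_ext
    intro u
    have hu : u ∈ Module.End.eigenspace (Matrix.toLin' T) c := by
      rw [h]
      exact Submodule.mem_top
    rw [Module.End.mem_eigenspace_iff, Matrix.toLin'_apply] at hu
    rw [hu, Matrix.smul_mulVec, Matrix.one_mulVec]

/-- the spectral decomposition of a Hermitian matrix is Hermitian -/
theorem spec_of27 {h : Matrix n n ℂ} {E : ℝ → Matrix n n ℂ} {Λ : Finset ℝ} (hE : SD h E Λ) (hh : hᴴ = h) :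
    Spec h E Λ := by
  have hF : SD h (fun μ => (E μ)ᴴ) Λ := by
    refine ⟨fun μ ν => ?_, ?_, ?_⟩
    · rw [← Matrix.conjTranspose_mul, hE.mul]
      by_cases hμ : μ = ν
      · rw [if_pos hμ, if_pos hμ.symm, hμ]
      · rw [if_neg hμ, if_neg (Ne.symm hμ), Matrix.conjTranspose_zero]
    · rw [← Matrix.conjTranspose_sum, hE.sum, Matrix.conjTranspose_one]
    · conv_lhs => rw [← hh, hE.eq]
      rw [Matrix.conjTranspose_sum]
      refine Finset.sum_congr rfl fun μ _ => ?_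
      rw [Matrix.conjTranspose_smul]
      congr 1
      exact Complex.conj_ofReal μ
  have hz : ∀ μ ν : ℝ, μ ≠ ν → E μ * (E ν)ᴴ = 0 := by
    intro μ ν hμ
    have e1 : E μ * (h * (E ν)ᴴ) = (ν : ℂ) • (E μ * (E ν)ᴴ) := by
      rw [hF.l_mul ν, mul_smul_comm]
    rw [← mul_assoc, hE.mul_l, smul_mul_assoc] at e1
    have e2 : ((μ : ℂ) - ν) • (E μ * (E ν)ᴴ) = 0 := by rw [sub_smul, e1, sub_self]
    rcases smul_eq_zero.1 e2 with e3 | e3
    · exact absurd (by exact_mod_cast sub_eq_zero.1 e3) hμ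
    · exact e3
  refine ⟨fun μ => ?_, hE.mul, fun μ hμ => hE.supp hμ, hE.sum, hE.eq⟩
  by_cases hμ : μ ∈ Λ
  · have e1 : E μ = E μ * (E μ)ᴴ := by
      conv_lhs => rw [← mul_one (E μ), ← hF.sum, Finset.mul_sum]
      rw [Finset.sum_eq_single_of_mem μ hμ]
      intro ν _ hν
      exact hz μ ν (Ne.symm hν)
    have e2 : (E μ)ᴴ = E μ * (E μ)ᴴ := by
      conv_lhs => rw [← one_mul (E μ)ᴴ, ← hE.sum, Finset.sum_mul]
      rw [Finset.sum_eq_single_of_mem μ hμ]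
      intro ν _ hν
      exact hz ν μ hν
    rw [e2]
    exact e1.symm
  · rw [hE.supp hμ, Matrix.conjTranspose_zero]

/-- conjugation of a spectral decomposition -/
theorem sd_cj27 {h : Matrix n n ℂ} {E : ℝ → Matrix n n ℂ} {Λ : Finset ℝ} (hE : SD h E Λ)
    {B Bi : Matrix n n ℂ} (h1 : B * Bi = 1) (h2 : Bi * B = 1) :
    SD (cj B Bi h) (fun μ => cj B Bi (E μ)) Λ := by
  refine ⟨fun μ ν => ?_, ?_, ?_⟩
  · rw [cj_mul h2, hE.mul]
    by_cases hμ : μ = ν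
    · rw [if_pos hμ, if_pos hμ]
    · rw [if_neg hμ, if_neg hμ, cj_zero]
  · rw [← cj_sum, hE.sum, cj_one h1]
  · conv_lhs => rw [hE.eq, cj_sum]
    exact Finset.sum_congr rfl fun μ _ => cj_smul _ _ _ _

/-- skew matrices in the new basis -/
theorem tG_cj27 {Q' Qi B Bi : Matrix n n ℂ} (hQ2 : Qi * Q' = 1) (h2 : Bi * B = 1) {X : Matrix n n ℂ}
    (hX : Xᵀ * Q' + Q' * X = 0) : tG27 (B * Qi * Bᵀ) (Biᵀ * Q' * Bi) (cj B Bi X) = -cj B Bi X := by
  have e1 : Bᵀ * Biᵀ = 1 := by rw [← Matrix.transpose_mul, h2, Matrix.transpose_one]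
  have e2 : Xᵀ * Q' = -(Q' * X) := eq_neg_of_add_eq_zero_left hX
  rw [tG_apply27]
  unfold cj
  rw [Matrix.transpose_mul, Matrix.transpose_mul]
  calc B * Qi * Bᵀ * (Biᵀ * (Xᵀ * Bᵀ)) * (Biᵀ * Q' * Bi)
      = B * Qi * (Bᵀ * Biᵀ) * Xᵀ * (Bᵀ * Biᵀ) * Q' * Bi := by simp only [mul_assoc]
    _ = B * Qi * (Xᵀ * Q') * Bi := by rw [e1, mul_one, mul_one]; simp only [mul_assoc]
    _ = -(B * (Qi * Q') * X * Bi) := by rw [e2, mul_neg, neg_mul]; simp only [mul_assoc]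
    _ = -(B * X * Bi) := by rw [hQ2, mul_one]

/-- the data of the theorem on a dominating middle eigenvalue -/
theorem dat_irr27 [Nonempty n] {Q' Qi : Matrix n n ℂ} (hQs : Q'ᵀ = Q') (hQ1 : Q' * Qi = 1) (hQ2 : Qi * Q' = 1)
    {L : Submodule ℂ (Matrix n n ℂ)} (hbr : ∀ X ∈ L, ∀ Y ∈ L, X * Y - Y * X ∈ L)
    (hirr : ∀ W : Submodule ℂ (n → ℂ), (∀ X ∈ L, ∀ w ∈ W, X *ᵥ w ∈ W) → W = ⊥ ∨ W = ⊤)
    (hsk : ∀ X ∈ L, Xᵀ * Q' + Q' * X = 0) {h : Matrix n n ℂ} (hh : h ∈ L) {E : ℝ → Matrix n n ℂ} {Λ : Finset ℝ}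
    (hE : SD h E Λ) {B Bi : Matrix n n ℂ} (h1 : B * Bi = 1) (h2 : Bi * B = 1) (h3 : (cj B Bi h)ᴴ = cj B Bi h)
    (h4 : ∀ X ∈ L, cj Bi B (cj B Bi X)ᴴ ∈ L) :
    Dat (tG27 (B * Qi * Bᵀ) (Biᵀ * Q' * Bi)) (LBB27 L B Bi) (cj B Bi h) (fun μ => cj B Bi (E μ)) Λ := by
  have b1 : Bᵀ * Biᵀ = 1 := by rw [← Matrix.transpose_mul, h2, Matrix.transpose_one]
  have b2 : Biᵀ * Bᵀ = 1 := by rw [← Matrix.transpose_mul, h1, Matrix.transpose_one]
  have hGiG : B * Qi * Bᵀ * (Biᵀ * Q' * Bi) = 1 := by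
    calc B * Qi * Bᵀ * (Biᵀ * Q' * Bi) = B * Qi * (Bᵀ * Biᵀ) * Q' * Bi := by simp only [mul_assoc]
      _ = B * (Qi * Q') * Bi := by rw [b1, mul_one]; simp only [mul_assoc]
      _ = 1 := by rw [hQ2, mul_one, h1]
  have hGGi : Biᵀ * Q' * Bi * (B * Qi * Bᵀ) = 1 := by
    calc Biᵀ * Q' * Bi * (B * Qi * Bᵀ) = Biᵀ * Q' * (Bi * B) * Qi * Bᵀ := by simp only [mul_assoc]
      _ = Biᵀ * (Q' * Qi) * Bᵀ := by rw [h2, mul_one]; simp only [mul_assoc]
      _ = 1 := by rw [hQ1, mul_one, b2]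
  have hGt : (Biᵀ * Q' * Bi)ᵀ = Biᵀ * Q' * Bi := by
    rw [Matrix.transpose_mul, Matrix.transpose_mul, Matrix.transpose_transpose, hQs, mul_assoc]
  have hsk' : ∀ x ∈ LBB27 L B Bi, tG27 (B * Qi * Bᵀ) (Biᵀ * Q' * Bi) x = -x := by
    intro x hx
    have e1 := tG_cj27 (B := B) hQ2 h2 (hsk _ (mem_LBB27.1 hx))
    rwa [cj_cj h1] at e1
  have hst' : ∀ x ∈ LBB27 L B Bi, xᴴ ∈ LBB27 L B Bi := by
    intro x hx
    have e1 := h4 _ (mem_LBB27.1 hx)
    rwa [cj_cj h1] at e1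
  have hirr' : ∀ T : Matrix n n ℂ, (∀ x ∈ LBB27 L B Bi, T * x = x * T) → ∃ c : ℂ, T = c • (1 : Matrix n n ℂ) := by
    intro T hT
    obtain ⟨c, hc⟩ := schur_of27 L hirr (T := cj Bi B T) (by
      intro X hX
      have e1 := hT (cj B Bi X) (by rw [mem_LBB27, cj_cj h2]; exact hX)
      have e2 := congrArg (cj Bi B) e1
      rwa [← cj_mul h1, ← cj_mul h1, cj_cj h2] at e2)
    refine ⟨c, ?_⟩
    have e3 := congrArg (cj B Bi) hc
    rwa [cj_cj h1, cj_smul, cj_one h1] at e3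
  generalize B * Qi * Bᵀ = Gi at hGiG hGGi hsk' ⊢
  generalize Biᵀ * Q' * Bi = G at hGiG hGGi hGt hsk' ⊢
  have hGit : Giᵀ = Gi := by
    have e1 : Giᵀ * G = 1 := by
      have e2 := congrArg Matrix.transpose hGGi
      rwa [Matrix.transpose_mul, hGt, Matrix.transpose_one] at e2
    calc Giᵀ = Giᵀ * (G * Gi) := by rw [hGGi, mul_one]
      _ = Gi := by rw [← mul_assoc, e1, one_mul]
  have hsk2 : ∀ x ∈ LBB27 L B Bi, xᵀ * G = -(G * x) := by
    intro x hx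
    calc xᵀ * G = G * (Gi * xᵀ * G) := by simp only [← mul_assoc]; rw [hGGi, one_mul]
      _ = -(G * x) := by rw [← tG_apply27, hsk' x hx, mul_neg]
  obtain ⟨c, hc⟩ := hirr' (Gᴴ * G) (by
    intro x hx
    have e1 : (xᴴ)ᵀ * G = -(G * xᴴ) := hsk2 _ (hst' x hx)
    have e2 : Gᴴ * xᵀ = -(x * Gᴴ) := by
      have e3 := congrArg Matrix.conjTranspose e1
      rw [Matrix.conjTranspose_mul, Matrix.conjTranspose_neg, Matrix.conjTranspose_mul,
        Matrix.conjTranspose_conjTranspose] at e3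
      have e4 : ((xᴴ)ᵀ)ᴴ = xᵀ := by
        have : (xᴴ)ᵀ = (xᵀ)ᴴ := rfl
        rw [this, Matrix.conjTranspose_conjTranspose]
      rwa [e4] at e3
    calc Gᴴ * G * x = -(Gᴴ * xᵀ * G) := by rw [mul_assoc, mul_assoc, hsk2 x hx, mul_neg, neg_neg]
      _ = x * (Gᴴ * G) := by rw [e2, neg_mul, neg_neg, mul_assoc])
  have hcr : starRingEnd ℂ c = c := by
    have e1 : (Gᴴ * G)ᴴ = Gᴴ * G := by rw [Matrix.conjTranspose_mul, Matrix.conjTranspose_conjTranspose]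
    rw [hc, Matrix.conjTranspose_smul, Matrix.conjTranspose_one] at e1
    obtain ⟨i⟩ := (inferInstance : Nonempty n)
    have e2 := congrFun (congrFun e1 i) i
    simpa using e2
  have hG1 : Gᴴ = c • Gi := by
    calc Gᴴ = Gᴴ * G * Gi := by rw [mul_assoc, hGGi, mul_one]
      _ = c • Gi := by rw [hc, smul_mul_assoc, one_mul]
  have hG2 : G = c • Giᴴ := by
    have e1 := congrArg Matrix.conjTranspose hG1
    rw [Matrix.conjTranspose_conjTranspose, Matrix.conjTranspose_smul] at e1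
    rw [e1]
    congr 1
  refine ⟨⟨?_, ?_, ?_, ?_⟩, spec_of27 (sd_cj27 hE h1 h2) h3, hsk', ?_, hst', hirr', ?_⟩
  · intro x y
    rw [tG_apply27, tG_apply27, tG_apply27, Matrix.transpose_mul]
    calc Gi * (yᵀ * xᵀ) * G = Gi * yᵀ * 1 * xᵀ * G := by rw [mul_one, ← mul_assoc Gi]
      _ = Gi * yᵀ * G * (Gi * xᵀ * G) := by rw [← hGGi]; simp only [mul_assoc]
  · intro x
    rw [tG_apply27, tG_apply27, Matrix.transpose_mul, Matrix.transpose_mul, Matrix.transpose_transpose, hGt, hGit]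
    calc Gi * (G * (x * Gi)) * G = Gi * G * x * (Gi * G) := by simp only [mul_assoc]
      _ = x := by rw [hGiG, one_mul, mul_one]
  · intro x
    rw [tG_apply27, tG_apply27, Matrix.conjTranspose_mul, Matrix.conjTranspose_mul]
    have e1 : (xᴴ)ᵀ = (xᵀ)ᴴ := rfl
    rw [e1]
    calc Gi * (xᵀ)ᴴ * G = c • (Gi * (xᵀ)ᴴ * Giᴴ) := by
          conv_lhs => rw [hG2]
          rw [mul_smul_comm]
      _ = Gᴴ * ((xᵀ)ᴴ * Giᴴ) := by rw [hG1, smul_mul_assoc, mul_assoc]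
  · intro x
    rw [tG_apply27, mul_assoc, Matrix.trace_mul_comm, mul_assoc, hGGi, mul_one, Matrix.trace_transpose]
  · intro x hx y hy
    rw [mem_LBB27, cj_sub, ← cj_mul h1, ← cj_mul h1]
    exact hbr _ (mem_LBB27.1 hx) _ (mem_LBB27.1 hy)
  · rw [mem_LBB27, cj_cj h2]
    exact hh


/-- **The gap theorem.** A simple irreducible complex Lie algebra `L` of matrices that are skew for a symmetric form,
containing a diagonalisable `h` with the eigenvalues `1, 0, -1`, `0` occurring, has no elements of degree two for `h`,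
or exactly a line of them (and the multiplicity of the eigenvalue `1` is even), or consists of all skew matrices. -/
theorem gap_matrix {Q' Qi : Matrix n n ℂ} (hQs : Q'ᵀ = Q') (hQ1 : Q' * Qi = 1) (hQ2 : Qi * Q' = 1)
    {L : Submodule ℂ (Matrix n n ℂ)} (hbr : ∀ X ∈ L, ∀ Y ∈ L, X * Y - Y * X ∈ L)
    (hirr : ∀ W : Submodule ℂ (n → ℂ), (∀ X ∈ L, ∀ w ∈ W, X *ᵥ w ∈ W) → W = ⊥ ∨ W = ⊤)
    (hsk : ∀ X ∈ L, Xᵀ * Q' + Q' * X = 0) (hsmp : Smp L) {h : Matrix n n ℂ} (hh : h ∈ L)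
    {E : ℝ → Matrix n n ℂ} {Λ : Finset ℝ} (hE : SD h E Λ) (T : Three27 E) (hE0 : E 0 ≠ 0) :
    Ld L h 2 = ⊥ ∨ (Module.finrank ℂ (Ld L h 2) = 1 ∧ Even (E 1).rank) ∨
      ∀ X : Matrix n n ℂ, Xᵀ * Q' + Q' * X = 0 → X ∈ L := by
  classical
  have hne : Nonempty n := by
    by_contra h0
    rw [not_nonempty_iff] at h0
    exact hE0 (Subsingleton.elim _ _)
  have htr : ∀ X ∈ L, X.trace = 0 := by
    intro Y hY
    have e1 : Yᵀ * Q' = -(Q' * Y) := eq_neg_of_add_eq_zero_left (hsk Y hY)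
    have e2 : Y.trace = -Y.trace := by
      calc Y.trace = (Yᵀ * (Q' * Qi)).trace := by rw [hQ1, mul_one, Matrix.trace_transpose]
        _ = -(Q' * Y * Qi).trace := by rw [← mul_assoc, e1, neg_mul, Matrix.trace_neg]
        _ = -Y.trace := by rw [mul_assoc, Matrix.trace_mul_comm, mul_assoc, hQ2, mul_one]
    exact self_eq_neg.1 e2
  obtain ⟨B, Bi, h1, h2, h3, h4⟩ := exists_herm L hbr hirr htr hh hE
  have D := dat_irr27 hQs hQ1 hQ2 hbr hirr hsk hh hE h1 h2 h3 h4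
  have b1 : Bᵀ * Biᵀ = 1 := by rw [← Matrix.transpose_mul, h2, Matrix.transpose_one]
  have b2 : Biᵀ * Bᵀ = 1 := by rw [← Matrix.transpose_mul, h1, Matrix.transpose_one]
  have hGiG : B * Qi * Bᵀ * (Biᵀ * Q' * Bi) = 1 := by
    calc B * Qi * Bᵀ * (Biᵀ * Q' * Bi) = B * Qi * (Bᵀ * Biᵀ) * Q' * Bi := by simp only [mul_assoc]
      _ = B * (Qi * Q') * Bi := by rw [b1, mul_one]; simp only [mul_assoc]
      _ = 1 := by rw [hQ2, mul_one, h1]
  have hGGi : Biᵀ * Q' * Bi * (B * Qi * Bᵀ) = 1 := by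
    calc Biᵀ * Q' * Bi * (B * Qi * Bᵀ) = Biᵀ * Q' * (Bi * B) * Qi * Bᵀ := by simp only [mul_assoc]
      _ = Biᵀ * (Q' * Qi) * Bᵀ := by rw [h2, mul_one]; simp only [mul_assoc]
      _ = 1 := by rw [hQ1, mul_one, b2]
  have hGt : (Biᵀ * Q' * Bi)ᵀ = Biᵀ * Q' * Bi := by
    rw [Matrix.transpose_mul, Matrix.transpose_mul, Matrix.transpose_transpose, hQs, mul_assoc]
  have T' : Three27 (fun μ => cj B Bi (E μ)) := by
    intro μ m1 m2 m3
    change cj B Bi (E μ) = 0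
    rw [T μ m1 m2 m3, cj_zero]
  have hE0' : cj B Bi (E 0) ≠ 0 := by
    intro h0
    apply hE0
    have := congrArg (cj Bi B) h0
    rwa [cj_cj h2, cj_zero] at this
  have hsmp' : ∀ K ≤ LBB27 L B Bi, (∀ X ∈ LBB27 L B Bi, ∀ Y ∈ K, X * Y - Y * X ∈ K) →
      K = ⊥ ∨ K = LBB27 L B Bi := by
    intro K hK hid
    rcases hsmp (LBB27 K Bi B) (by
      intro X hX
      have e1 := hK (mem_LBB27.1 hX)
      rwa [mem_LBB27, cj_cj h2] at e1) (by
      intro X hX Y hY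
      rw [mem_LBB27, cj_sub, ← cj_mul h2, ← cj_mul h2]
      refine hid _ ?_ _ (mem_LBB27.1 hY)
      rw [mem_LBB27, cj_cj h2]
      exact hX) with h5 | h5
    · left
      rw [eq_bot_iff]
      intro Y hY
      have e1 : cj Bi B Y ∈ LBB27 K Bi B := by
        rw [mem_LBB27, cj_cj h1]
        exact hY
      rw [h5, Submodule.mem_bot] at e1
      have e2 := congrArg (cj B Bi) e1
      rw [cj_cj h1, cj_zero] at e2
      exact e2
    · right
      apply le_antisymm hK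
      intro Y hY
      have e1 : cj Bi B Y ∈ LBB27 K Bi B := by
        rw [h5]
        exact mem_LBB27.1 hY
      rwa [mem_LBB27, cj_cj h1] at e1
  have hLd : ∀ X, X ∈ Ld L h 2 ↔ cj B Bi X ∈ Ld (LBB27 L B Bi) (cj B Bi h) 2 := by
    intro X
    rw [mem_Ld, mem_Ld, mem_LBB27, cj_cj h2, cj_mul h2, cj_mul h2, ← cj_sub, ← cj_smul]
    refine and_congr_right fun _ => ⟨fun e1 => by rw [e1], fun e1 => ?_⟩
    have e2 := congrArg (cj Bi B) e1
    rwa [cj_cj h2, cj_cj h2] at e2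
  rcases D.gap27 T' hGt hGGi hGiG (fun x => rfl) hsmp' hE0' with h5 | ⟨h5, h6⟩ | h5
  · left
    rw [eq_bot_iff]
    intro X hX
    have e1 := (hLd X).1 hX
    rw [h5, Submodule.mem_bot] at e1
    have e2 := congrArg (cj Bi B) e1
    rw [cj_cj h2, cj_zero] at e2
    exact e2
  · right; left
    constructor
    · refine Eq.trans ?_ h5
      refine LinearEquiv.finrank_eq (LinearEquiv.ofBijective
        ({ toFun := fun X => ⟨cj B Bi X.1, (hLd X.1).1 X.2⟩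
           map_add' := fun X Y => Subtype.ext (cj_add _ _ _ _)
           map_smul' := fun c X => Subtype.ext (cj_smul _ _ _ _) } :
          Ld L h 2 →ₗ[ℂ] Ld (LBB27 L B Bi) (cj B Bi h) 2) ⟨?_, ?_⟩)
      · intro X Y hXY
        have e1 : cj B Bi X.1 = cj B Bi Y.1 := congrArg Subtype.val hXY
        have e2 := congrArg (cj Bi B) e1
        rw [cj_cj h2, cj_cj h2] at e2
        exact Subtype.ext e2
      · rintro ⟨Y, hY⟩
        refine ⟨⟨cj Bi B Y, ?_⟩, Subtype.ext ?_⟩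
        · rw [hLd, cj_cj h1]
          exact hY
        · change cj B Bi (cj Bi B Y) = Y
          rw [cj_cj h1]
    · have e1 : (cj B Bi (E 1)).rank = (E 1).rank := rank_cj h1 h2 (by rw [hE.mul, if_pos rfl])
      rw [← e1]
      exact h6
  · right; right
    intro X hX
    have hmem := h5 _ (tG_cj27 (B := B) hQ2 h2 hX)
    rwa [mem_LBB27, cj_cj h2] at hmem

end MH
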