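import Pool.Agent.Helper27.GP.Gap

/-!
The gap theorem for a simple Lie algebra of endomorphisms.
-/

set_option linter.unusedSectionVars false

open Matrix Module

attribute [local instance 100] LieRing.ofAssociativeRing

namespace MH

/-- the spectral decomposition of a matrix with `h ^ 3 = h` -/
noncomputable def E27 {n : Type*} [Fintype n] [DecidableEq n] (h : Matrix n n ℂ) (μ : ℝ) : Matrix n n ℂ :=
  if μ = 1 then (1 / 2 : ℂ) • (h * h + h) else if μ = 0 then 1 - h * h
    else if μ = -1 then (1 / 2 : ℂ) • (h * h - h) else 0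

lemma sd27 {n : Type*} [Fintype n] [DecidableEq n] {h : Matrix n n ℂ} (hh : h * h * h = h) :
    SD h (E27 h) {1, 0, -1} := by
  have e1 : E27 h 1 = (1 / 2 : ℂ) • (h * h + h) := by rw [E27, if_pos rfl]
  have e0 : E27 h 0 = 1 - h * h := by rw [E27, if_neg (by norm_num), if_pos rfl]
  have em : E27 h (-1) = (1 / 2 : ℂ) • (h * h - h) := by
    rw [E27, if_neg (by norm_num), if_neg (by norm_num), if_pos rfl]
  have ex : ∀ μ : ℝ, μ ≠ 1 → μ ≠ 0 → μ ≠ -1 → E27 h μ = 0 := by
    intro μ h1 h2 h3
    rw [E27, if_neg h1, if_neg h2, if_neg h3]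
  have h4 : h * h * (h * h) = h * h := by rw [← mul_assoc, hh]
  have h3' : h * (h * h) = h := by rw [← mul_assoc, hh]
  refine ⟨fun μ ν => ?_, ?_, ?_⟩
  · by_cases a1 : μ = 1
    · subst a1
      by_cases b1 : ν = 1
      · subst b1
        rw [if_pos rfl, e1, smul_mul_smul_comm, mul_add, add_mul, add_mul, h4, hh, h3']
        have : h * h + h + (h + h * h) = (2 : ℂ) • (h * h + h) := by rw [two_smul]; abel
        rw [this, smul_smul]
        norm_num
      · rw [if_neg (Ne.symm b1)]
        by_cases b2 : ν = 0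
        · subst b2
          rw [e1, e0, smul_mul_assoc, mul_sub, mul_one, add_mul, h4, h3', sub_self, smul_zero]
        · by_cases b3 : ν = -1
          · subst b3
            rw [e1, em, smul_mul_smul_comm, mul_sub, add_mul, add_mul, h4, hh, h3']
            have : h * h + h - (h + h * h) = 0 := by abel
            rw [this, smul_zero]
          · rw [ex ν b1 b2 b3, mul_zero]
    · by_cases a2 : μ = 0
      · subst a2
        by_cases b1 : ν = 1
        · subst b1
          rw [if_neg (by norm_num), e0, e1, mul_smul_comm, sub_mul, one_mul, mul_add, h4, hh, sub_self, smul_zero]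
        · by_cases b2 : ν = 0
          · subst b2
            rw [if_pos rfl, e0, mul_sub, mul_one, sub_mul, one_mul, h4]
            abel
          · rw [if_neg (Ne.symm b2)]
            by_cases b3 : ν = -1
            · subst b3
              rw [e0, em, mul_smul_comm, sub_mul, one_mul, mul_sub, h4, hh, sub_self, smul_zero]
            · rw [ex ν b1 b2 b3, mul_zero]
      · by_cases a3 : μ = -1
        · subst a3
          by_cases b1 : ν = 1
          · subst b1
            rw [if_neg (by norm_num), em, e1, smul_mul_smul_comm, mul_add, sub_mul, sub_mul, h4, hh, h3']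
            have : h * h - h + (h - h * h) = 0 := by abel
            rw [this, smul_zero]
          · by_cases b2 : ν = 0
            · subst b2
              rw [if_neg (by norm_num), em, e0, smul_mul_assoc, mul_sub, mul_one, sub_mul, h4, h3', sub_self,
                smul_zero]
            · by_cases b3 : ν = -1
              · subst b3
                rw [if_pos rfl, em, smul_mul_smul_comm, mul_sub, sub_mul, sub_mul, h4, hh, h3']
                have : h * h - h - (h - h * h) = (2 : ℂ) • (h * h - h) := by rw [two_smul]; abel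
                rw [this, smul_smul]
                norm_num
              · rw [if_neg (Ne.symm b3), ex ν b1 b2 b3, mul_zero]
        · rw [ex μ a1 a2 a3, zero_mul]
          split_ifs <;> rfl
  · rw [Finset.sum_insert (by norm_num), Finset.sum_insert (by norm_num), Finset.sum_singleton, e1, e0, em,
      smul_add, smul_sub]
    have : (1 / 2 : ℂ) • (h * h) + (1 / 2 : ℂ) • (h * h) = h * h := by
      rw [← add_smul]
      norm_num
    calc (1 / 2 : ℂ) • (h * h) + (1 / 2 : ℂ) • h + (1 - h * h + ((1 / 2 : ℂ) • (h * h) - (1 / 2 : ℂ) • h))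
        = ((1 / 2 : ℂ) • (h * h) + (1 / 2 : ℂ) • (h * h)) + (1 - h * h) := by abel
      _ = 1 := by rw [this]; abel
  · rw [Finset.sum_insert (by norm_num), Finset.sum_insert (by norm_num), Finset.sum_singleton, e1, e0, em]
    simp only [Complex.ofReal_one, Complex.ofReal_zero, Complex.ofReal_neg]
    module

variable {V : Type*} [AddCommGroup V] [Module ℂ V] [FiniteDimensional ℂ V]

/-- The elements of degree two. -/
def deg2 (L : LieSubalgebra ℂ (Module.End ℂ V)) (y : Module.End ℂ V) : Submodule ℂ (Module.End ℂ V) where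
  carrier := {x | x ∈ L ∧ y * x - x * y = (2 : ℂ) • x}
  add_mem' := by
    rintro a b ⟨ha, ha'⟩ ⟨hb, hb'⟩
    refine ⟨L.add_mem ha hb, ?_⟩
    rw [mul_add, add_mul, smul_add, ← ha', ← hb']
    abel
  zero_mem' := ⟨L.zero_mem, by simp⟩
  smul_mem' := by
    rintro c a ⟨ha, ha'⟩
    refine ⟨L.smul_mem c ha, ?_⟩
    rw [mul_smul_comm, smul_mul_assoc, smul_comm, ← ha', smul_sub]

/-- **The gap theorem.** -/
theorem gap_end {ω : LinearMap.BilinForm ℂ V} (hsymm : ω.IsSymm) (hnd : ω.Nondegenerate)
    (L : LieSubalgebra ℂ (Module.End ℂ V)) [LieAlgebra.IsSimple ℂ L]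
    (hirr : ∀ W : Submodule ℂ V, (∀ x ∈ L, ∀ u ∈ W, x u ∈ W) → W = ⊥ ∨ W = ⊤)
    (hsk : ∀ x ∈ L, ∀ u v, ω (x u) v = -ω u (x v)) {y : Module.End ℂ V} (hy : y ∈ L)
    (hy3 : y * y * y = y) (hy1 : y * y ≠ 1) :
    deg2 L y = ⊥ ∨ (finrank ℂ (deg2 L y) = 1 ∧ Even (finrank ℂ (Module.End.eigenspace y 1))) ∨
      ∀ x : Module.End ℂ V, (∀ u v, ω (x u) v = -ω u (x v)) → x ∈ L := by
  classical
  let b := Module.finBasis ℂ V
  let e := LinearMap.toMatrixAlgEquiv b
  have he : ∀ x : Module.End ℂ V, e x = LinearMap.toMatrix b b x := fun x => rfl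
  let Lm : Submodule ℂ (Matrix (Fin (finrank ℂ V)) (Fin (finrank ℂ V)) ℂ) :=
    { carrier := {X | e.symm X ∈ L}
      add_mem' := fun {X Y} hX hY => by
        change e.symm (X + Y) ∈ L
        rw [map_add]; exact L.add_mem hX hY
      zero_mem' := by
        change e.symm 0 ∈ L
        rw [map_zero]; exact L.zero_mem
      smul_mem' := fun c X hX => by
        change e.symm (c • X) ∈ L
        rw [map_smul]; exact L.smul_mem c hX }
  have hLm : ∀ X, X ∈ Lm ↔ e.symm X ∈ L := fun X => Iff.rfl
  have hLe : ∀ x : Module.End ℂ V, e x ∈ Lm ↔ x ∈ L := fun x => by rw [hLm, AlgEquiv.symm_apply_apply]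
  let Q' := LinearMap.BilinForm.toMatrix b ω
  have hQs : Q'ᵀ = Q' := by
    ext i j
    rw [Matrix.transpose_apply]
    change LinearMap.BilinForm.toMatrix b ω j i = LinearMap.BilinForm.toMatrix b ω i j
    rw [LinearMap.BilinForm.toMatrix_apply, LinearMap.BilinForm.toMatrix_apply]
    exact hsymm.eq (b j) (b i)
  have hdet : Q'.det ≠ 0 := (LinearMap.BilinForm.nondegenerate_iff_det_ne_zero b).mp hnd
  have hunit : IsUnit Q'.det := isUnit_iff_ne_zero.mpr hdet
  have hQ1 : Q' * Q'⁻¹ = 1 := Matrix.mul_nonsing_inv _ hunit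
  have hQ2 : Q'⁻¹ * Q' = 1 := Matrix.nonsing_inv_mul _ hunit
  have hskew : ∀ x : Module.End ℂ V, (e x)ᵀ * Q' + Q' * (e x) = 0 ↔ ∀ u v, ω (x u) v = -ω u (x v) := by
    intro x
    have e1 : (e x)ᵀ * Q' = LinearMap.BilinForm.toMatrix b (ω.compLeft x) :=
      (LinearMap.BilinForm.toMatrix_compLeft b ω x).symm
    have e2 : Q' * (e x) = LinearMap.BilinForm.toMatrix b (ω.compRight x) :=
      (LinearMap.BilinForm.toMatrix_compRight b ω x).symm
    rw [e1, e2, ← map_add]
    constructor
    · intro h0 u v
      have h1 : ω.compLeft x + ω.compRight x = 0 := by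
        apply (LinearMap.BilinForm.toMatrix b).injective
        rw [h0, map_zero]
      have h2 := LinearMap.congr_fun (LinearMap.congr_fun h1 u) v
      exact eq_neg_of_add_eq_zero_left h2
    · intro h0
      have h1 : ω.compLeft x + ω.compRight x = 0 := by
        ext u v
        change ω (x u) v + ω u (x v) = 0
        rw [h0 u v]
        ring
      rw [h1, map_zero]
  have hbr : ∀ X ∈ Lm, ∀ Y ∈ Lm, X * Y - Y * X ∈ Lm := by
    intro X hX Y hY
    rw [hLm, map_sub, map_mul, map_mul]
    exact L.lie_mem hX hY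
  have hsm : ∀ W : Submodule ℂ (Fin (finrank ℂ V) → ℂ), (∀ X ∈ Lm, ∀ w ∈ W, X *ᵥ w ∈ W) → W = ⊥ ∨ W = ⊤ := by
    intro W hW
    rcases hirr (W.comap b.equivFun.toLinearMap) (by
      intro x hx u hu
      rw [Submodule.mem_comap] at hu ⊢
      have h1 := hW (e x) ((hLe x).2 hx) _ hu
      have h2 : e x *ᵥ (b.equivFun.toLinearMap u) = b.equivFun.toLinearMap (x u) := by
        have := LinearMap.toMatrix_mulVec_repr b b x u
        exact this
      rwa [h2] at h1) with h0 | h0
    · left
      rw [eq_bot_iff]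
      intro w hw
      have h1 : b.equivFun.symm w ∈ W.comap b.equivFun.toLinearMap := by
        rw [Submodule.mem_comap]
        change b.equivFun (b.equivFun.symm w) ∈ W
        rwa [LinearEquiv.apply_symm_apply]
      rw [h0, Submodule.mem_bot] at h1
      rw [Submodule.mem_bot]
      have h2 := congrArg b.equivFun h1
      rwa [LinearEquiv.apply_symm_apply, map_zero] at h2
    · right
      rw [eq_top_iff]
      intro w _
      have h1 : b.equivFun.symm w ∈ W.comap b.equivFun.toLinearMap := by
        rw [h0]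
        exact Submodule.mem_top
      rw [Submodule.mem_comap] at h1
      have h2 : b.equivFun (b.equivFun.symm w) ∈ W := h1
      rwa [LinearEquiv.apply_symm_apply] at h2
  have hsimp : Smp Lm := by
    intro K hK hid
    let I : LieIdeal ℂ L :=
      { carrier := {x | e x.1 ∈ K}
        add_mem' := fun {x y} hx hy => by
          change e (x.1 + y.1) ∈ K
          rw [map_add]; exact K.add_mem hx hy
        zero_mem' := by
          change e 0 ∈ K
          rw [map_zero]; exact K.zero_mem
        smul_mem' := fun c x hx => by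
          change e (c • x.1) ∈ K
          rw [map_smul]; exact K.smul_mem c hx
        lie_mem := fun {x m} hm => by
          change e (x.1 * m.1 - m.1 * x.1) ∈ K
          rw [map_sub, map_mul, map_mul]
          exact hid _ ((hLe x.1).2 x.2) _ hm }
    rcases LieAlgebra.IsSimple.eq_bot_or_eq_top (R := ℂ) I with h0 | h0
    · left
      rw [eq_bot_iff]
      intro X hX
      have h1 : (⟨e.symm X, hK hX⟩ : L) ∈ I := by
        change e (e.symm X) ∈ K
        rwa [AlgEquiv.apply_symm_apply]
      rw [h0, LieSubmodule.mem_bot] at h1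
      have h2 : e.symm X = 0 := congrArg Subtype.val h1
      rw [Submodule.mem_bot]
      have h3 := congrArg e h2
      rwa [AlgEquiv.apply_symm_apply, map_zero] at h3
    · right
      apply le_antisymm hK
      intro X hX
      have h1 : (⟨e.symm X, hX⟩ : L) ∈ I := by
        rw [h0]
        exact LieSubmodule.mem_top _
      have h2 : e (e.symm X) ∈ K := h1
      rwa [AlgEquiv.apply_symm_apply] at h2
  have hh3 : e y * e y * e y = e y := by rw [← map_mul, ← map_mul, hy3]
  have hSD := sd27 hh3
  have hT : Three27 (E27 (e y)) := by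
    intro μ h1 h2 h3
    rw [E27, if_neg h1, if_neg h2, if_neg h3]
  have hE0 : E27 (e y) 0 ≠ 0 := by
    rw [E27, if_neg (by norm_num), if_pos rfl]
    intro h0
    apply hy1
    apply e.injective
    rw [map_mul, map_one]
    exact (sub_eq_zero.mp h0).symm
  have hdeg : ∀ x : Module.End ℂ V, x ∈ deg2 L y ↔ e x ∈ Ld Lm (e y) 2 := by
    intro x
    rw [mem_Ld, hLe, ← map_mul, ← map_mul, ← map_sub]
    refine and_congr_right fun _ => ⟨fun h1 => ?_, fun h1 => ?_⟩
    · rw [h1, map_smul]
      norm_num
    · apply e.injective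
      rw [h1, map_smul]
      norm_num
  rcases gap_matrix hQs hQ1 hQ2 hbr hsm (fun X hX => by
    have h1 := (hskew (e.symm X)).2 (hsk _ hX)
    rwa [AlgEquiv.apply_symm_apply] at h1) hsimp ((hLe y).2 hy) hSD hT hE0 with h5 | ⟨h5, h6⟩ | h5
  · left
    rw [eq_bot_iff]
    intro x hx
    have h1 := (hdeg x).1 hx
    rw [h5, Submodule.mem_bot] at h1
    rw [Submodule.mem_bot]
    exact e.injective (by rw [h1, map_zero])
  · right; left
    constructor
    · refine Eq.trans ?_ h5
      refine LinearEquiv.finrank_eq (LinearEquiv.ofBijective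
        ({ toFun := fun x => ⟨e x.1, (hdeg x.1).1 x.2⟩
           map_add' := fun x y => Subtype.ext (map_add e x.1 y.1)
           map_smul' := fun c x => Subtype.ext (map_smul e c x.1) } :
          deg2 L y →ₗ[ℂ] Ld Lm (e y) 2) ⟨?_, ?_⟩)
      · intro x y hxy
        exact Subtype.ext (e.injective (congrArg Subtype.val hxy))
      · rintro ⟨Y, hY⟩
        refine ⟨⟨e.symm Y, ?_⟩, Subtype.ext ?_⟩
        · rw [hdeg, AlgEquiv.apply_symm_apply]
          exact hY
        · exact AlgEquiv.apply_symm_apply e Y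
    · have h7 : (E27 (e y) 1).rank = finrank ℂ (Module.End.eigenspace y 1) := by
        have h8 : E27 (e y) 1 = e ((1 / 2 : ℂ) • (y * y + y)) := by
          rw [E27, if_pos rfl, map_smul, map_add, map_mul]
        rw [h8, Matrix.rank_eq_finrank_range_toLin _ b b]
        have h9 : Matrix.toLin b b (e ((1 / 2 : ℂ) • (y * y + y))) = (1 / 2 : ℂ) • (y * y + y) :=
          Matrix.toLin_toMatrix b b _
        have h11 : LinearMap.range ((1 / 2 : ℂ) • (y * y + y)) = Module.End.eigenspace y 1 := by
          ext v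
          rw [Module.End.mem_eigenspace_iff, one_smul]
          constructor
          · rintro ⟨w, rfl⟩
            have h10 : y * ((1 / 2 : ℂ) • (y * y + y)) = (1 / 2 : ℂ) • (y * y + y) := by
              rw [mul_smul_comm, mul_add, ← mul_assoc, hy3, add_comm]
            exact LinearMap.congr_fun h10 w
          · intro hv
            refine ⟨v, ?_⟩
            rw [LinearMap.smul_apply, LinearMap.add_apply, Module.End.mul_apply, hv, hv, ← two_smul ℂ,
              smul_smul]
            norm_num
        rw [h9, h11]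
      rw [← h7]
      exact h6
  · right; right
    intro x hx
    exact (hLe x).1 (h5 _ ((hskew x).2 hx))

/-- The gap theorem for an eigenvalue `1` of odd multiplicity. -/
theorem gap_odd {ω : LinearMap.BilinForm ℂ V} (hsymm : ω.IsSymm) (hnd : ω.Nondegenerate)
    (L : LieSubalgebra ℂ (Module.End ℂ V)) [LieAlgebra.IsSimple ℂ L]
    (hirr : ∀ W : Submodule ℂ V, (∀ x ∈ L, ∀ u ∈ W, x u ∈ W) → W = ⊥ ∨ W = ⊤)
    (hsk : ∀ x ∈ L, ∀ u v, ω (x u) v = -ω u (x v)) {y : Module.End ℂ V} (hy : y ∈ L)
    (hy3 : y * y * y = y) (hy1 : y * y ≠ 1) (hodd : Odd (finrank ℂ (Module.End.eigenspace y 1))) :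
    (∀ x ∈ L, y * x - x * y = (2 : ℂ) • x → x = 0) ∨
      ∀ x : Module.End ℂ V, (∀ u v, ω (x u) v = -ω u (x v)) → x ∈ L := by
  rcases gap_end hsymm hnd L hirr hsk hy hy3 hy1 with h1 | ⟨_, h1⟩ | h1
  · left
    intro x hx hx2
    have h2 : x ∈ deg2 L y := ⟨hx, hx2⟩
    rwa [h1, Submodule.mem_bot] at h2
  · exact absurd h1 (Nat.not_even_iff_odd.mpr hodd)
  · exact Or.inr h1

/-- a diagonalisable endomorphism with the eigenvalues `0, 1, -1` -/
lemma cube27 {y : Module.End ℂ V} (hdiag : (⨆ c : ℂ, Module.End.eigenspace y c) = ⊤)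
    (hev : ∀ c : ℂ, Module.End.eigenspace y c ≠ ⊥ → c = 0 ∨ c = 1 ∨ c = -1) : y * y * y = y := by
  apply LinearMap.ext
  intro v
  have hv : v ∈ ⨆ c : ℂ, Module.End.eigenspace y c := by
    rw [hdiag]
    exact Submodule.mem_top
  induction hv using Submodule.iSup_induction' with
  | mem c v hv =>
    rw [Module.End.mem_eigenspace_iff] at hv
    by_cases hc : Module.End.eigenspace y c = ⊥
    · have h1 : v ∈ Module.End.eigenspace y c := Module.End.mem_eigenspace_iff.mpr hv
      rw [hc, Submodule.mem_bot] at h1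
      rw [h1, map_zero, map_zero]
    · rw [Module.End.mul_apply, Module.End.mul_apply, hv, map_smul, map_smul, hv, map_smul, hv, smul_smul,
        smul_smul]
      rcases hev c hc with rfl | rfl | rfl
      · simp
      · simp
      · norm_num
  | zero => rw [map_zero, map_zero]
  | add a b _ _ ha hb => rw [map_add, map_add, ha, hb]

/-- The gap theorem, for a diagonalisable element with the eigenvalues `0, 1, -1`. -/
theorem gap_three {ω : LinearMap.BilinForm ℂ V} (hsymm : ω.IsSymm) (hnd : ω.Nondegenerate)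
    (L : LieSubalgebra ℂ (Module.End ℂ V)) [LieAlgebra.IsSimple ℂ L]
    (hirr : ∀ W : Submodule ℂ V, (∀ x ∈ L, ∀ u ∈ W, x u ∈ W) → W = ⊥ ∨ W = ⊤)
    (hsk : ∀ x ∈ L, ∀ u v, ω (x u) v = -ω u (x v)) {y : Module.End ℂ V} (hy : y ∈ L)
    (hdiag : (⨆ c : ℂ, Module.End.eigenspace y c) = ⊤)
    (hev : ∀ c : ℂ, Module.End.eigenspace y c ≠ ⊥ → c = 0 ∨ c = 1 ∨ c = -1)
    (hodd : Odd (finrank ℂ (Module.End.eigenspace y 1))) (h0 : 0 < finrank ℂ (Module.End.eigenspace y 0)) :
    (∀ x ∈ L, y * x - x * y = (2 : ℂ) • x → x = 0) ∨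
      ∀ x : Module.End ℂ V, (∀ u v, ω (x u) v = -ω u (x v)) → x ∈ L := by
  refine gap_odd hsymm hnd L hirr hsk hy (cube27 hdiag hev) (fun h1 => ?_) hodd
  have h2 : Module.End.eigenspace y 0 ≠ ⊥ := by
    intro h3
    rw [h3, finrank_bot] at h0
    exact lt_irrefl _ h0
  obtain ⟨v, hv, hv0⟩ := (Submodule.ne_bot_iff _).1 h2
  rw [Module.End.mem_eigenspace_iff, zero_smul] at hv
  apply hv0
  have h3 := LinearMap.congr_fun h1 v
  rw [Module.End.mul_apply, hv, map_zero] at h3
  exact h3.symm

end MH
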