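import Pool.Agent.Helper98.MH.Full

/-!
The case of the eigenvalues `1`, `0`, `-1`: the associative algebra generated by the elements of
degree `2` and `-2`.
-/

open Matrix

namespace MH

variable {n : Type*} [Fintype n] [DecidableEq n]
variable {h : Matrix n n ℂ} {E : ℝ → Matrix n n ℂ} {Λ : Finset ℝ}
variable {τ : Matrix n n ℂ →ₗ[ℂ] Matrix n n ℂ} {L : Submodule ℂ (Matrix n n ℂ)}

/-- The only eigenvalues of `h` are `1`, `0`, `-1`. -/
def Three27 (E : ℝ → Matrix n n ℂ) : Prop := ∀ μ : ℝ, μ ≠ 1 → μ ≠ 0 → μ ≠ -1 → E μ = 0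

/-- The (non-unital) associative algebra generated by the elements of degree `2` and `-2`. -/
def BB27 (L : Submodule ℂ (Matrix n n ℂ)) (h : Matrix n n ℂ) : NonUnitalSubalgebra ℂ (Matrix n n ℂ) :=
  NonUnitalAlgebra.adjoin ℂ ((Ld L h 2 : Set (Matrix n n ℂ)) ∪ (Ld L h (-2) : Set (Matrix n n ℂ)))

namespace Dat

variable (D : Dat τ L h E Λ) (T : Three27 E)
include D

lemma Ld_star27 {ν : ℝ} {x : Matrix n n ℂ} (hx : x ∈ Ld L h ν) : xᴴ ∈ Ld L h (-ν) := by
  refine ⟨D.st _ hx.1, ?_⟩
  have h1 := congrArg conjTranspose hx.2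
  rw [conjTranspose_sub, conjTranspose_mul, conjTranspose_mul, D.spec.hh, conjTranspose_smul] at h1
  have h2 : h * xᴴ - xᴴ * h = -(xᴴ * h - h * xᴴ) := by abel
  rw [h2, h1]
  simp

include T

lemma sum327 : E 1 + E 0 + E (-1) = 1 := by
  classical
  have h1 : ∑ μ ∈ Λ, E μ = ∑ μ ∈ Λ ∪ {1, 0, -1}, E μ :=
    Finset.sum_subset Finset.subset_union_left fun μ _ hμ => D.spec.supp μ hμ
  have h2 : ∑ μ ∈ ({1, 0, -1} : Finset ℝ), E μ = ∑ μ ∈ Λ ∪ {1, 0, -1}, E μ :=
    Finset.sum_subset Finset.subset_union_right fun μ _ hμ => by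
      simp only [Finset.mem_insert, Finset.mem_singleton, not_or] at hμ
      exact T μ hμ.1 hμ.2.1 hμ.2.2
  rw [← D.spec.sum, h1, ← h2, Finset.sum_insert (by norm_num), Finset.sum_insert (by norm_num),
    Finset.sum_singleton, add_assoc]

lemma Ld227 {x : Matrix n n ℂ} (hx : x ∈ Ld L h 2) : E 1 * x * E (-1) = x := by
  have h1 := D.Ld_mul_E hx 1
  have h2 := D.Ld_mul_E hx 0
  have h3 := D.Ld_mul_E hx (-1)
  rw [T (1 + 2) (by norm_num) (by norm_num) (by norm_num), zero_mul, zero_mul] at h1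
  rw [T (0 + 2) (by norm_num) (by norm_num) (by norm_num), zero_mul, zero_mul] at h2
  rw [show (-1 : ℝ) + 2 = 1 by norm_num] at h3
  rw [← h3]
  conv_rhs => rw [← mul_one x, ← D.sum327 T, mul_add, mul_add, h1, h2]
  simp

lemma Ldm227 {x : Matrix n n ℂ} (hx : x ∈ Ld L h (-2)) : E (-1) * x * E 1 = x := by
  have h1 := D.Ld_mul_E hx 1
  have h2 := D.Ld_mul_E hx 0
  have h3 := D.Ld_mul_E hx (-1)
  rw [T (-1 + -2) (by norm_num) (by norm_num) (by norm_num), zero_mul, zero_mul] at h3
  rw [T (0 + -2) (by norm_num) (by norm_num) (by norm_num), zero_mul, zero_mul] at h2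
  rw [show (1 : ℝ) + -2 = -1 by norm_num] at h1
  rw [← h1]
  conv_rhs => rw [← mul_one x, ← D.sum327 T, mul_add, mul_add, h3, h2]
  simp

/-- the generators -/
lemma gen_zero27 {x : Matrix n n ℂ}
    (hx : x ∈ (Ld L h 2 : Set (Matrix n n ℂ)) ∪ (Ld L h (-2) : Set (Matrix n n ℂ))) :
    x ∈ L ∧ E 0 * x = 0 ∧ x * E 0 = 0 := by
  rcases hx with hx | hx
  · refine ⟨hx.1, ?_, ?_⟩
    · rw [← D.Ld227 T hx, ← mul_assoc, ← mul_assoc, D.spec.mul, if_neg (by norm_num), zero_mul, zero_mul]
    · rw [← D.Ld227 T hx, mul_assoc, D.spec.mul, if_neg (by norm_num), mul_zero]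
  · refine ⟨hx.1, ?_, ?_⟩
    · rw [← D.Ldm227 T hx, ← mul_assoc, ← mul_assoc, D.spec.mul, if_neg (by norm_num), zero_mul, zero_mul]
    · rw [← D.Ldm227 T hx, mul_assoc, D.spec.mul, if_neg (by norm_num), mul_zero]

lemma BB_left27 {a : Matrix n n ℂ} (ha : a ∈ BB27 L h) : E 0 * a = 0 := by
  induction ha using NonUnitalAlgebra.adjoin_induction with
  | mem k hk => exact (D.gen_zero27 T hk).2.1
  | add x y _ _ hx hy => rw [mul_add, hx, hy, add_zero]
  | zero => simp
  | mul x y _ _ hx _ => rw [← mul_assoc, hx, zero_mul]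
  | smul r x _ hx => rw [mul_smul_comm, hx, smul_zero]

lemma BB_right27 {a : Matrix n n ℂ} (ha : a ∈ BB27 L h) : a * E 0 = 0 := by
  induction ha using NonUnitalAlgebra.adjoin_induction with
  | mem k hk => exact (D.gen_zero27 T hk).2.2
  | add x y _ _ hx hy => rw [add_mul, hx, hy, add_zero]
  | zero => simp
  | mul x y _ _ _ hy => rw [mul_assoc, hy, mul_zero]
  | smul r x _ hx => rw [smul_mul_assoc, hx, smul_zero]

omit T in
lemma BB_star27 {a : Matrix n n ℂ} (ha : a ∈ BB27 L h) : aᴴ ∈ BB27 L h := by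
  induction ha using NonUnitalAlgebra.adjoin_induction with
  | mem k hk =>
    apply NonUnitalAlgebra.subset_adjoin ℂ
    rcases hk with hk | hk
    · exact Or.inr (D.Ld_star27 hk)
    · left
      have := D.Ld_star27 hk
      rwa [neg_neg] at this
  | add x y _ _ hx hy => rw [conjTranspose_add]; exact add_mem hx hy
  | zero => rw [conjTranspose_zero]; exact zero_mem _
  | mul x y _ _ hx hy => rw [conjTranspose_mul]; exact mul_mem hy hx
  | smul r x _ hx => rw [conjTranspose_smul]; exact SMulMemClass.smul_mem _ hx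

omit T in
lemma BB_tau27 {a : Matrix n n ℂ} (ha : a ∈ BB27 L h) : τ a ∈ BB27 L h := by
  induction ha using NonUnitalAlgebra.adjoin_induction with
  | mem k hk =>
    have hkL : k ∈ L := by
      rcases hk with hk | hk
      · exact hk.1
      · exact hk.1
    rw [D.sk k hkL]
    exact neg_mem (NonUnitalAlgebra.subset_adjoin ℂ hk)
  | add x y _ _ hx hy => rw [map_add]; exact add_mem hx hy
  | zero => rw [map_zero]; exact zero_mem _
  | mul x y _ _ hx hy => rw [D.inv.mul]; exact mul_mem hy hx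
  | smul r x _ hx => rw [map_smul]; exact SMulMemClass.smul_mem _ hx

omit T in
/-- Elements of degree zero normalise the algebra. -/
lemma BB_bracket27 {l a : Matrix n n ℂ} (hl : l ∈ Ld L h 0) (ha : a ∈ BB27 L h) :
    l * a - a * l ∈ BB27 L h := by
  induction ha using NonUnitalAlgebra.adjoin_induction with
  | mem k hk =>
    apply NonUnitalAlgebra.subset_adjoin ℂ
    rcases hk with hk | hk
    · left
      have := Ld_bracket D.br hl hk
      rwa [zero_add] at this
    · right
      have := Ld_bracket D.br hl hk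
      rwa [zero_add] at this
  | add x y _ _ hx hy =>
    have : l * (x + y) - (x + y) * l = (l * x - x * l) + (l * y - y * l) := by noncomm_ring
    rw [this]; exact add_mem hx hy
  | zero => simp
  | mul x y hx' hy' hx hy =>
    have : l * (x * y) - (x * y) * l = (l * x - x * l) * y + x * (l * y - y * l) := by
      noncomm_ring
    rw [this]; exact add_mem (mul_mem hx hy') (mul_mem hx' hy)
  | smul r x _ hx =>
    have : l * (r • x) - (r • x) * l = r • (l * x - x * l) := by
      rw [mul_smul_comm, smul_mul_assoc, smul_sub]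
    rw [this]; exact SMulMemClass.smul_mem _ hx

omit T in
lemma mem_BB227 {x : Matrix n n ℂ} (hx : x ∈ Ld L h 2) : x ∈ BB27 L h :=
  NonUnitalAlgebra.subset_adjoin ℂ (Or.inl hx)

omit T in
lemma mem_BBm227 {x : Matrix n n ℂ} (hx : x ∈ Ld L h (-2)) : x ∈ BB27 L h :=
  NonUnitalAlgebra.subset_adjoin ℂ (Or.inr hx)

/-- `XX` is closed under left multiplication by the algebra. -/
lemma mul_XX27 {z a : Matrix n n ℂ} (hz : z ∈ XX τ L E) (ha : a ∈ BB27 L h) : a * z ∈ XX τ L E := by
  induction ha using NonUnitalAlgebra.adjoin_induction generalizing z with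
  | mem k hk =>
    obtain ⟨k1, k2, k3⟩ := D.gen_zero27 T hk
    refine ⟨?_, by rw [← mul_assoc, k2, zero_mul], by rw [mul_assoc, hz.2.2]⟩
    have h1 := D.br _ k1 _ hz.1
    have e1 : k * τ z = 0 := by rw [← D.E_tau_XX hz, ← mul_assoc, k3, zero_mul]
    have e2 : z * k = 0 := by rw [← hz.2.2, mul_assoc, k2, mul_zero]
    have h2 : k * (z - τ z) - (z - τ z) * k = k * z - τ (k * z) := by
      rw [D.inv.mul, D.sk k k1, mul_sub, sub_mul, e1, e2]
      noncomm_ring
    rwa [h2] at h1
  | add x y _ _ hx hy => rw [add_mul]; exact add_mem (hx hz) (hy hz)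
  | zero => rw [zero_mul]; exact zero_mem _
  | mul x y _ _ hx hy => rw [mul_assoc]; exact hx (hy hz)
  | smul r x _ hx => rw [smul_mul_assoc]; exact (XX τ L E).smul_mem _ (hx hz)

end Dat

/-- A minimal projection of a `*`-closed algebra of matrices. -/
theorem exists_min_of27 (A : NonUnitalSubalgebra ℂ (Matrix n n ℂ)) (hst : ∀ a ∈ A, aᴴ ∈ A)
    {k : Matrix n n ℂ} (hk : k ∈ A) (hk0 : k ≠ 0) : ∃ e ∈ A, e * e = e ∧ eᴴ = e ∧ e ≠ 0 ∧
    ∀ y ∈ A, ∃ c : ℂ, e * y * e = c • e := by
  classical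
  have hex : ∃ r : ℕ, ∃ a ∈ A, a ≠ 0 ∧ a.rank = r := ⟨k.rank, k, hk, hk0, rfl⟩
  obtain ⟨a, ha, ha0, har⟩ := Nat.find_spec hex
  have hmin : ∀ b ∈ A, b ≠ 0 → a.rank ≤ b.rank := by
    intro b hb hb0
    rw [har]
    exact Nat.find_min' hex ⟨b, hb, hb0, rfl⟩
  -- key property
  have key : ∀ y ∈ A, ∃ t : ℂ, a * y * a = t • a := by
    intro y hy
    let R : Submodule ℂ (n → ℂ) := LinearMap.range (Matrix.toLin' a)
    have hst : ∀ v ∈ R, Matrix.toLin' (a * y) v ∈ R := by
      intro v _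
      rw [Matrix.toLin'_mul]
      exact LinearMap.mem_range_self _ _
    let f : R →ₗ[ℂ] R := (Matrix.toLin' (a * y)).restrict hst
    have hRne : Nontrivial R := by
      rw [Submodule.nontrivial_iff_ne_bot]
      intro h0
      apply ha0
      have : Matrix.toLin' a = 0 := LinearMap.range_eq_bot.mp h0
      exact Matrix.toLin'.injective (by rw [this, map_zero])
    obtain ⟨t, ht⟩ := Module.End.exists_eigenvalue f
    obtain ⟨v, hv⟩ := ht.exists_hasEigenvector
    refine ⟨t, ?_⟩
    by_contra hne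
    have hne' : a * y * a - t • a ≠ 0 := fun h' => hne (sub_eq_zero.mp h')
    have hmem : a * y * a - t • a ∈ A :=
      sub_mem (mul_mem (mul_mem ha hy) ha) (SMulMemClass.smul_mem t ha)
    have hle := hmin _ hmem hne'
    obtain ⟨w, hw⟩ := v.2
    have hvw : a *ᵥ w = (v : n → ℂ) := by rw [← hw, Matrix.toLin'_apply]
    have hv0 : (v : n → ℂ) ≠ 0 := fun h0 => hv.2 (Subtype.ext h0)
    have hfv : (a * y) *ᵥ (v : n → ℂ) = t • (v : n → ℂ) := by
      have h1 := hv.apply_eq_smul
      have h2 := congrArg Subtype.val h1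
      simpa [f] using h2
    have hker : LinearMap.ker (Matrix.toLin' a) <
        LinearMap.ker (Matrix.toLin' (a * y * a - t • a)) := by
      rw [lt_iff_le_and_ne]
      constructor
      · intro u hu
        rw [LinearMap.mem_ker, Matrix.toLin'_apply] at hu ⊢
        rw [Matrix.sub_mulVec, ← Matrix.mulVec_mulVec, hu, Matrix.smul_mulVec, hu]
        simp
      · intro heq
        have : w ∈ LinearMap.ker (Matrix.toLin' a) := by
          rw [heq, LinearMap.mem_ker, Matrix.toLin'_apply, Matrix.sub_mulVec,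
            ← Matrix.mulVec_mulVec, hvw, hfv, Matrix.smul_mulVec, hvw, sub_self]
        rw [LinearMap.mem_ker, Matrix.toLin'_apply, hvw] at this
        exact hv0 this
    have h1 := Submodule.finrank_lt_finrank_of_lt hker
    have h2 := LinearMap.finrank_range_add_finrank_ker (Matrix.toLin' a)
    have h3 := LinearMap.finrank_range_add_finrank_ker (Matrix.toLin' (a * y * a - t • a))
    have h4 : a.rank = Module.finrank ℂ (LinearMap.range (Matrix.toLin' a)) := by
      rw [Matrix.rank_eq_finrank_range_toLin a (Pi.basisFun ℂ n) (Pi.basisFun ℂ n),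
        Matrix.toLin_eq_toLin']
    have h5 : (a * y * a - t • a).rank =
        Module.finrank ℂ (LinearMap.range (Matrix.toLin' (a * y * a - t • a))) := by
      rw [Matrix.rank_eq_finrank_range_toLin _ (Pi.basisFun ℂ n) (Pi.basisFun ℂ n),
        Matrix.toLin_eq_toLin']
    omega
  obtain ⟨t, ht⟩ := key _ (hst a ha)
  have hpos := trace_pos ha0
  have him := trace_im a
  have haa : aᴴ * a ≠ 0 := fun h0 => ha0 (eq_zero_of_mul h0)
  have hsq : (aᴴ * a) * (aᴴ * a) = t • (aᴴ * a) := by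
    have : (aᴴ * a) * (aᴴ * a) = aᴴ * (a * aᴴ * a) := by simp only [mul_assoc]
    rw [this, ht, mul_smul_comm]
  have hsa : (aᴴ * a)ᴴ = aᴴ * a := by rw [conjTranspose_mul, conjTranspose_conjTranspose]
  have hpos2 := trace_pos haa
  rw [hsa, hsq, Matrix.trace_smul, smul_eq_mul] at hpos2
  have him2 := trace_im (aᴴ * a)
  rw [hsa, hsq, Matrix.trace_smul, smul_eq_mul] at him2
  rw [Complex.mul_re, him, mul_zero, sub_zero] at hpos2
  rw [Complex.mul_im, him, mul_zero, zero_add] at him2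
  have htim : t.im = 0 := by
    rcases mul_eq_zero.mp him2 with h1 | h1
    · exact h1
    · exact absurd h1 hpos.ne'
  have htre : 0 < t.re := by
    rcases pos_iff_pos_of_mul_pos hpos2 |>.mpr hpos with h1
    exact h1
  have ht0 : t ≠ 0 := by intro h0; rw [h0] at htre; simp at htre
  have htr : (starRingEnd ℂ) t = t := by
    apply Complex.ext
    · rw [Complex.conj_re]
    · rw [Complex.conj_im, htim, neg_zero]
  refine ⟨t⁻¹ • (aᴴ * a), SMulMemClass.smul_mem _ (mul_mem (hst a ha) ha), ?_, ?_, ?_, ?_⟩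
  · rw [smul_mul_smul_comm, hsq, smul_smul, mul_assoc, inv_mul_cancel₀ ht0, mul_one]
  · rw [conjTranspose_smul, hsa]
    congr 1
    rw [← starRingEnd_apply, map_inv₀, htr]
  · intro h0
    rcases smul_eq_zero.mp h0 with h1 | h1
    · exact ht0 (inv_eq_zero.mp h1)
    · exact haa h1
  · intro y hy
    obtain ⟨c, hc⟩ := key (y * aᴴ) (mul_mem hy (hst a ha))
    refine ⟨t⁻¹ * c, ?_⟩
    rw [smul_mul_assoc, smul_mul_smul_comm]
    have : aᴴ * a * y * (aᴴ * a) = aᴴ * (a * (y * aᴴ) * a) := by simp only [mul_assoc]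
    rw [this, hc, mul_smul_comm, smul_smul, smul_smul]
    congr 1
    ring

end MH
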