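import Pool.Agent.Helper27.GP.One

/-!
If the minimal projection has rank one, `L` consists of all skew matrices.
-/

open Matrix

namespace MH

variable {n : Type*} [Fintype n] [DecidableEq n]
variable {h : Matrix n n ℂ} {E : ℝ → Matrix n n ℂ} {Λ : Finset ℝ}
variable {τ : Matrix n n ℂ →ₗ[ℂ] Matrix n n ℂ} {L : Submodule ℂ (Matrix n n ℂ)}

/-- The (adjoints of the) off-diagonal elements supported on `e`. -/
def MX27 (τ : Matrix n n ℂ →ₗ[ℂ] Matrix n n ℂ) (L : Submodule ℂ (Matrix n n ℂ))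
    (E : ℝ → Matrix n n ℂ) (e : Matrix n n ℂ) : Submodule ℂ (Matrix n n ℂ) where
  carrier := {m | mᴴ ∈ XX τ L E ∧ m * e = m}
  add_mem' := by
    rintro a b ⟨ha, ha'⟩ ⟨hb, hb'⟩
    exact ⟨by rw [conjTranspose_add]; exact add_mem ha hb, by rw [add_mul, ha', hb']⟩
  zero_mem' := ⟨by rw [conjTranspose_zero]; exact zero_mem _, by simp⟩
  smul_mem' := by
    rintro c a ⟨ha, ha'⟩
    exact ⟨by rw [conjTranspose_smul]; exact Submodule.smul_mem _ _ ha, by rw [smul_mul_assoc, ha']⟩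

namespace UB27

variable {e : Matrix n n ℂ} {d : ℕ} {u : Fin d → Matrix n n ℂ}
variable (D : Dat τ L h E Λ) (T : Three27 E) (P : MinB27 L h e) (U : UB27 L h E e u)
include D T P U

/-- A second family of units, for the kernel of `h`. -/
theorem exists_m (hd : 3 ≤ d) (hE1 : E 0 ≠ 1) : ∃ (f : ℕ) (m : Fin f → Matrix n n ℂ),
    (∀ a, (m a)ᴴ ∈ XX τ L E) ∧ (∀ a, m a * e = m a) ∧ (∀ a b, (m a)ᴴ * m b = if a = b then e else 0) ∧
    ∑ a, m a * (m a)ᴴ = E 0 := by
  have hMM : ∀ m ∈ MX27 τ L E e, ∀ m' ∈ MX27 τ L E e, ∃ c : ℂ, mᴴ * m' = c • e := by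
    intro m hm m' hm'
    have hl : ∀ {m : Matrix n n ℂ}, m ∈ MX27 τ L E e → e * mᴴ = mᴴ := by
      intro m hm
      have := congrArg conjTranspose hm.2
      rwa [conjTranspose_mul, P.star] at this
    obtain ⟨c, hc⟩ := U.scal D T P hd hm.1 (hl hm) hm'.1 (hl hm')
    rw [conjTranspose_conjTranspose] at hc
    exact ⟨c, hc⟩
  obtain ⟨m, hm, hmm, hQ, _⟩ := exists_onb_rel98 P.idem P.star P.ne (MX27 τ L E e) (fun m hm => hm.2) hMM
  refine ⟨_, m, fun a => (hm a).1, fun a => (hm a).2, hmm, ?_⟩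
  -- the common kernel of the off-diagonal elements
  let K : Submodule ℂ (n → ℂ) :=
    { carrier := {v | E 0 *ᵥ v = v ∧ ∀ z ∈ XX τ L E, z *ᵥ v = 0}
      add_mem' := by
        rintro a b ⟨ha, ha'⟩ ⟨hb, hb'⟩
        exact ⟨by rw [mulVec_add, ha, hb], fun z hz => by rw [mulVec_add, ha' z hz, hb' z hz, add_zero]⟩
      zero_mem' := ⟨by rw [mulVec_zero], fun z _ => by rw [mulVec_zero]⟩
      smul_mem' := by
        rintro c a ⟨ha, ha'⟩
        exact ⟨by rw [mulVec_smul, ha], fun z hz => by rw [mulVec_smul, ha' z hz, smul_zero]⟩ }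
  have hK : K = ⊥ := by
    rcases D.stable K (by
      rintro x hx v ⟨hv, hv'⟩
      obtain ⟨a, ha, b, ⟨z, hz, rfl⟩, hc, rfl⟩ := D.even_odd27 T hx
      have h1 : (z - τ z) *ᵥ v = 0 := by
        rw [sub_mulVec, hv' z hz, zero_sub, ← hv, mulVec_mulVec, D.tau_XX_E hz, zero_mulVec, neg_zero]
      rw [add_mulVec, h1, add_zero]
      refine ⟨by rw [mulVec_mulVec, hc, ← mulVec_mulVec, hv], fun w hw => ?_⟩
      have h2 : (a * w - w * a) *ᵥ v = 0 := by
        obtain ⟨w', hw', h3⟩ := D.OO_even27 ha hc ⟨w, hw, rfl⟩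
        have h4 : (a * w - w * a) = w' := by
          have h6 : a * (w - τ w) * E 0 = a * w := by
            rw [mul_sub, sub_mul, mul_assoc, hw.2.2, mul_assoc a, D.tau_XX_E hw, mul_zero, sub_zero]
          have h7 : (w - τ w) * a * E 0 = w * a := by
            rw [mul_assoc, ← hc, ← mul_assoc, sub_mul, hw.2.2, D.tau_XX_E hw, sub_zero]
          have h5 : (a * (w - τ w) - (w - τ w) * a) * E 0 = (w' - τ w') * E 0 := by rw [h3]
          rw [sub_mul, h6, h7, sub_mul w', hw'.2.2, D.tau_XX_E hw', sub_zero] at h5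
          exact h5
        rw [h4]
        exact hv' w' hw'
      rw [mulVec_mulVec]
      have h8 : w * a = a * w - (a * w - w * a) := by abel
      rw [h8, sub_mulVec, h2, sub_zero, ← mulVec_mulVec, hv' w hw, mulVec_zero]) with h0 | h0
    · exact h0
    · exfalso
      apply hE1
      apply Dat.mat_ext
      intro v
      have : v ∈ K := by rw [h0]; exact Submodule.mem_top
      rw [this.1, one_mulVec]
  have hmE : ∀ a, (m a)ᴴ * E 0 = (m a)ᴴ := fun a => (hm a).1.2.2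
  have hEm : ∀ a, E 0 * m a = m a := by
    intro a
    have := congrArg conjTranspose (hmE a)
    rwa [conjTranspose_mul, conjTranspose_conjTranspose, D.spec.star] at this
  have hFE : (∑ a, m a * (m a)ᴴ) * E 0 = ∑ a, m a * (m a)ᴴ := by
    rw [Finset.sum_mul]
    exact Finset.sum_congr rfl fun a _ => by rw [mul_assoc, hmE]
  have hEF : E 0 * (∑ a, m a * (m a)ᴴ) = ∑ a, m a * (m a)ᴴ := by
    rw [Finset.mul_sum]
    exact Finset.sum_congr rfl fun a _ => by rw [← mul_assoc, hEm]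
  have hFs : (∑ a, m a * (m a)ᴴ)ᴴ = ∑ a, m a * (m a)ᴴ := by
    rw [conjTranspose_sum]
    exact Finset.sum_congr rfl fun a _ => by rw [conjTranspose_mul, conjTranspose_conjTranspose]
  have key : ∀ v : n → ℂ, (E 0 - ∑ a, m a * (m a)ᴴ) *ᵥ v ∈ K := by
    intro v
    refine ⟨by rw [mulVec_mulVec, mul_sub, D.E00, hEF], fun z hz => ?_⟩
    have hz2 : z * (E 0 - ∑ a, m a * (m a)ᴴ) = 0 := by
      rw [U.expand D T P hz.2.1, Finset.sum_mul]
      refine Finset.sum_eq_zero fun i _ => ?_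
      have h1 : ((u i)ᴴ * z)ᴴ ∈ MX27 τ L E e := by
        refine ⟨?_, ?_⟩
        · rw [conjTranspose_conjTranspose]
          exact D.mul_XX27 T hz (D.BB_star27 (U.mem i))
        · rw [conjTranspose_mul, conjTranspose_conjTranspose, mul_assoc, U.right]
      have h2 := congrArg conjTranspose (hQ _ h1)
      rw [conjTranspose_mul, hFs, conjTranspose_conjTranspose] at h2
      have h3 : (u i)ᴴ * z * E 0 = (u i)ᴴ * z := by rw [mul_assoc, hz.2.2]
      rw [mul_assoc, mul_sub, h2, h3, sub_self, mul_zero]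
    rw [mulVec_mulVec, hz2, zero_mulVec]
  have h0 : E 0 - ∑ a, m a * (m a)ᴴ = 0 := by
    apply Dat.mat_ext
    intro v
    have := key v
    rw [hK, Submodule.mem_bot] at this
    rw [this, zero_mulVec]
  exact (sub_eq_zero.mp h0).symm

/-- If the minimal projection has rank one, then `L` is everything. -/
theorem full_of_rank_one (hd : 3 ≤ d) (hE0 : E 0 ≠ 0) (hE1 : E 0 ≠ 1)
    (h1 : ∀ Y : Matrix n n ℂ, ∃ c : ℂ, e * Y * e = c • e) {X : Matrix n n ℂ} (hX : τ X = -X) : X ∈ L := by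
  obtain ⟨f, m, hm, hme, hmm, hsum⟩ := U.exists_m D T P hd hE1
  have hem : ∀ a, e * (m a)ᴴ = (m a)ᴴ := by
    intro a
    have := congrArg conjTranspose (hme a)
    rwa [conjTranspose_mul, P.star] at this
  -- all off-diagonal matrices
  have hXX : ∀ Y : Matrix n n ℂ, E 0 * Y = 0 → Y * E 0 = Y → Y ∈ XX τ L E := by
    intro Y hY1 hY2
    have e1 : Y = ∑ i, ∑ a, u i * ((u i)ᴴ * Y * m a) * (m a)ᴴ := by
      conv_lhs => rw [U.expand D T P hY1]
      refine Finset.sum_congr rfl fun i _ => ?_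
      have e2 : (u i)ᴴ * Y = ∑ a, (u i)ᴴ * Y * m a * (m a)ᴴ := by
        simp_rw [mul_assoc]
        rw [← Finset.mul_sum, ← Finset.mul_sum, hsum, hY2]
      conv_lhs => rw [e2]
      rw [Finset.mul_sum]
      refine Finset.sum_congr rfl fun a _ => ?_
      noncomm_ring
    rw [e1]
    refine sum_mem fun i _ => sum_mem fun a _ => ?_
    obtain ⟨c, hc⟩ := h1 ((u i)ᴴ * Y * m a)
    have e3 : e * ((u i)ᴴ * Y * m a) * e = (u i)ᴴ * Y * m a := by
      have : e * ((u i)ᴴ * Y * m a) * e = (e * (u i)ᴴ) * Y * (m a * e) := by noncomm_ring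
      rw [this, U.left P, hme]
    rw [← e3, hc, mul_smul_comm, smul_mul_assoc, U.right]
    exact Submodule.smul_mem _ _ (D.mul_XX27 T (hm a) (U.mem i))
  -- the skew part of a matrix
  let S : Matrix n n ℂ →ₗ[ℂ] Matrix n n ℂ := LinearMap.id - τ
  have hS : ∀ Y, S Y = Y - τ Y := fun Y => rfl
  have hSodd : ∀ Y : Matrix n n ℂ, E 0 * Y = 0 → Y * E 0 = Y → S Y ∈ L := fun Y a b => (hXX Y a b).1
  have hSbr : ∀ x y : Matrix n n ℂ, x ∈ XX τ L E → y ∈ XX τ L E → S (x * yᴴ) - S (yᴴ * x) ∈ L :=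
    fun x y hx hy => (D.odd_bracket27 hx hy).2.1
  have hd0 : (d : ℂ) ≠ 0 := by
    have : d ≠ 0 := by omega
    exact_mod_cast this
  -- the kernel has a unit
  have hf : 0 < f := by
    by_contra hcon
    have hf0 : f = 0 := by omega
    subst hf0
    apply hE0
    rw [← hsum]
    simp
  let a₀ : Fin f := ⟨0, hf⟩
  have hz0 : ∀ i, u i * (m a₀)ᴴ ∈ XX τ L E := fun i => D.mul_XX27 T (hm a₀) (U.mem i)
  have hbr0 : ∀ i j, S (u i * (u j)ᴴ) - S (if j = i then m a₀ * (m a₀)ᴴ else 0) ∈ L := by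
    intro i j
    have h2 := hSbr _ _ (hz0 i) (hz0 j)
    have e1 : u i * (m a₀)ᴴ * (u j * (m a₀)ᴴ)ᴴ = u i * (u j)ᴴ := by
      rw [conjTranspose_mul, conjTranspose_conjTranspose]
      have : u i * (m a₀)ᴴ * (m a₀ * (u j)ᴴ) = u i * ((m a₀)ᴴ * m a₀) * (u j)ᴴ := by noncomm_ring
      rw [this, hmm, if_pos rfl, U.right]
    have e2 : (u j * (m a₀)ᴴ)ᴴ * (u i * (m a₀)ᴴ) = if j = i then m a₀ * (m a₀)ᴴ else 0 := by
      rw [conjTranspose_mul, conjTranspose_conjTranspose]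
      have : m a₀ * (u j)ᴴ * (u i * (m a₀)ᴴ) = m a₀ * ((u j)ᴴ * u i) * (m a₀)ᴴ := by noncomm_ring
      rw [this, U.orth]
      split_ifs with hji
      · rw [hme]
      · rw [mul_zero, zero_mul]
    rwa [e1, e2] at h2
  -- the projection on the first unit of the kernel
  have hm0 : S (m a₀ * (m a₀)ᴴ) ∈ L := by
    have h2 : ∑ i : Fin d, (S (u i * (u i)ᴴ) - S (m a₀ * (m a₀)ᴴ)) ∈ L := by
      refine L.sum_mem fun i _ => ?_
      have := hbr0 i i
      rwa [if_pos rfl] at this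
    rw [Finset.sum_sub_distrib, ← map_sum, U.sum, Finset.sum_const, Finset.card_univ, Fintype.card_fin] at h2
    have h3 : S (1 - E 0) = 0 := by
      rw [hS, map_sub, D.inv.one, D.tauE0, sub_self]
    rw [h3, zero_sub] at h2
    have h4 := L.smul_mem (-(d : ℂ)⁻¹) h2
    have h5 : (-(d : ℂ)⁻¹) • -(d • S (m a₀ * (m a₀)ᴴ)) = S (m a₀ * (m a₀)ᴴ) := by
      rw [← Nat.cast_smul_eq_nsmul ℂ, smul_neg, neg_smul, neg_neg, smul_smul, inv_mul_cancel₀ hd0, one_smul]
    rwa [h5] at h4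
  have huu : ∀ i j, S (u i * (u j)ᴴ) ∈ L := by
    intro i j
    have h2 := hbr0 i j
    have h3 : S (if j = i then m a₀ * (m a₀)ᴴ else 0) ∈ L := by
      split_ifs
      · exact hm0
      · rw [map_zero]; exact L.zero_mem
    have h4 := L.add_mem h2 h3
    rwa [sub_add_cancel] at h4
  -- the block of the complement of the kernel
  have hPP : ∀ Y : Matrix n n ℂ, E 0 * Y = 0 → Y * E 0 = 0 → S Y ∈ L := by
    intro Y hY1 hY2
    have e1 : Y = ∑ i, ∑ j, u i * ((u i)ᴴ * Y * u j) * (u j)ᴴ := by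
      conv_lhs => rw [U.expand D T P hY1]
      refine Finset.sum_congr rfl fun i _ => ?_
      have h3 : (u i)ᴴ * Y * E 0 = 0 := by rw [mul_assoc, hY2, mul_zero]
      conv_lhs => rw [U.expand_right D T P h3]
      rw [Finset.mul_sum]
      refine Finset.sum_congr rfl fun j _ => ?_
      noncomm_ring
    rw [e1, map_sum]
    refine L.sum_mem fun i _ => ?_
    rw [map_sum]
    refine L.sum_mem fun j _ => ?_
    obtain ⟨c, hc⟩ := h1 ((u i)ᴴ * Y * u j)
    have e3 : e * ((u i)ᴴ * Y * u j) * e = (u i)ᴴ * Y * u j := by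
      have : e * ((u i)ᴴ * Y * u j) * e = (e * (u i)ᴴ) * Y * (u j * e) := by noncomm_ring
      rw [this, U.left P, U.right]
    rw [← e3, hc, mul_smul_comm, smul_mul_assoc, U.right, map_smul]
    exact L.smul_mem _ (huu i j)
  -- the block of the kernel
  have h00 : ∀ Y : Matrix n n ℂ, E 0 * Y = Y → Y * E 0 = Y → S Y ∈ L := by
    intro Y hY1 hY2
    have hd' : 0 < d := by omega
    let i₀ : Fin d := ⟨0, hd'⟩
    have e1 : Y = ∑ a, (u i₀ * (m a)ᴴ)ᴴ * (u i₀ * ((m a)ᴴ * Y)) := by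
      have e2 : ∀ a, (u i₀ * (m a)ᴴ)ᴴ * (u i₀ * ((m a)ᴴ * Y)) = m a * (m a)ᴴ * Y := by
        intro a
        rw [conjTranspose_mul, conjTranspose_conjTranspose]
        have : m a * (u i₀)ᴴ * (u i₀ * ((m a)ᴴ * Y)) = m a * ((u i₀)ᴴ * u i₀) * ((m a)ᴴ * Y) := by
          noncomm_ring
        rw [this, U.orth, if_pos rfl, hme, mul_assoc]
      simp_rw [e2]
      rw [← Finset.sum_mul, hsum, hY1]
    rw [e1, map_sum]
    refine L.sum_mem fun a _ => ?_
    have hx : u i₀ * ((m a)ᴴ * Y) ∈ XX τ L E := by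
      apply hXX
      · rw [← mul_assoc, D.BB_left27 T (U.mem i₀), zero_mul]
      · rw [mul_assoc, mul_assoc, hY2]
    have hy : u i₀ * (m a)ᴴ ∈ XX τ L E := D.mul_XX27 T (hm a) (U.mem i₀)
    have h2 := hSbr _ _ hx hy
    have h3 : S (u i₀ * ((m a)ᴴ * Y) * (u i₀ * (m a)ᴴ)ᴴ) ∈ L := by
      apply hPP
      · rw [← mul_assoc, hx.2.1, zero_mul]
      · have h4 : (u i₀ * (m a)ᴴ)ᴴ * E 0 = 0 := by
          have := congrArg conjTranspose hy.2.1
          rwa [conjTranspose_mul, D.spec.star, conjTranspose_zero] at this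
        rw [mul_assoc, h4, mul_zero]
    have h5 := L.sub_mem h3 h2
    rwa [sub_sub_cancel] at h5
  -- conclusion
  have hdec : X = (1 - E 0) * X * (1 - E 0) + E 0 * X * E 0 + (1 - E 0) * X * E 0 + E 0 * X * (1 - E 0) := by
    noncomm_ring
  have hSX : S X = (2 : ℂ) • X := by rw [hS, hX, sub_neg_eq_add, two_smul]
  have hPi : E 0 * (1 - E 0) = 0 := by rw [mul_sub, mul_one, D.E00, sub_self]
  have hPi' : (1 - E 0) * E 0 = 0 := by rw [sub_mul, one_mul, D.E00, sub_self]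
  have hfin : S X ∈ L := by
    rw [hdec, map_add, map_add, map_add]
    refine L.add_mem (L.add_mem (L.add_mem (hPP _ ?_ ?_) (h00 _ ?_ ?_)) (hSodd _ ?_ ?_)) ?_
    · rw [← mul_assoc, ← mul_assoc, hPi, zero_mul, zero_mul]
    · rw [mul_assoc, hPi', mul_zero]
    · rw [← mul_assoc, ← mul_assoc, D.E00]
    · rw [mul_assoc, D.E00]
    · rw [← mul_assoc, ← mul_assoc, hPi, zero_mul, zero_mul]
    · rw [mul_assoc, D.E00]
    · have h2 : S (E 0 * X * (1 - E 0)) = S ((1 - E 0) * X * E 0) := by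
        rw [hS, hS, D.inv.mul, D.inv.mul, D.inv.mul ((1 - E 0) * X), D.inv.mul (1 - E 0), map_sub,
          D.inv.one, D.tauE0, hX]
        noncomm_ring
      rw [h2]
      apply hSodd
      · rw [← mul_assoc, ← mul_assoc, hPi, zero_mul, zero_mul]
      · rw [mul_assoc, D.E00]
  rw [hSX] at hfin
  have h2 := L.smul_mem (2⁻¹ : ℂ) hfin
  rwa [smul_smul, inv_mul_cancel₀ two_ne_zero, one_smul] at h2

end UB27

end MH
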