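import Pool.Agent.Helper27.GP.Alg

/-!
The extreme eigenspaces of `h` are irreducible under the elements of degree zero.
-/

open Matrix

namespace MH

variable {n : Type*} [Fintype n] [DecidableEq n]
variable {h : Matrix n n ℂ} {E : ℝ → Matrix n n ℂ} {Λ : Finset ℝ}
variable {τ : Matrix n n ℂ →ₗ[ℂ] Matrix n n ℂ} {L : Submodule ℂ (Matrix n n ℂ)}

/-- **Orbits.** If the subspace `W₀` is stable up to the span `W` of the vectors `m w`, `w` in `W₀`, `m` a product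
of elements of `S ⊆ L`, then `W` is everything. -/
lemma Dat.orbit27 (D : Dat τ L h E Λ) {S : Set (Matrix n n ℂ)} (hS : ∀ x ∈ S, x ∈ L)
    {W₀ : Submodule ℂ (n → ℂ)} (hW₀ : W₀ ≠ ⊥)
    (hL : ∀ z ∈ L, ∀ w ∈ W₀,
      z *ᵥ w ∈ Submodule.span ℂ {u | ∃ m ∈ Submonoid.closure S, ∃ w ∈ W₀, u = m *ᵥ w}) :
    Submodule.span ℂ {u | ∃ m ∈ Submonoid.closure S, ∃ w ∈ W₀, u = m *ᵥ w} = ⊤ := by
  set W : Submodule ℂ (n → ℂ) :=
    Submodule.span ℂ {u | ∃ m ∈ Submonoid.closure S, ∃ w ∈ W₀, u = m *ᵥ w} with hWdef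
  have hSW : ∀ s ∈ S, ∀ u ∈ W, s *ᵥ u ∈ W := by
    intro s hs u hu
    induction hu using Submodule.span_induction with
    | mem u hu =>
      obtain ⟨m, hm, w, hw, rfl⟩ := hu
      rw [mulVec_mulVec]
      exact Submodule.subset_span ⟨s * m, mul_mem (Submonoid.subset_closure hs) hm, w, hw, rfl⟩
    | zero => rw [mulVec_zero]; exact W.zero_mem
    | add u v _ _ hu hv => rw [mulVec_add]; exact W.add_mem hu hv
    | smul c u _ hu => rw [mulVec_smul]; exact W.smul_mem c hu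
  have key : ∀ m ∈ Submonoid.closure S, ∀ z ∈ L, ∀ w ∈ W₀, (z * m) *ᵥ w ∈ W := by
    intro m hm
    induction hm using Submonoid.closure_induction_left with
    | one =>
      intro z hz w hw
      rw [mul_one]
      exact hL z hz w hw
    | mul_left s hs m hm ih =>
      intro z hz w hw
      have e1 : z * (s * m) = s * (z * m) + (z * s - s * z) * m := by noncomm_ring
      rw [e1, add_mulVec]
      refine W.add_mem ?_ (ih _ (D.br z hz s (hS s hs)) w hw)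
      rw [← mulVec_mulVec]
      exact hSW s hs _ (ih z hz w hw)
  have hst : ∀ x ∈ L, ∀ u ∈ W, x *ᵥ u ∈ W := by
    intro x hx u hu
    induction hu using Submodule.span_induction with
    | mem u hu =>
      obtain ⟨m, hm, w, hw, rfl⟩ := hu
      rw [mulVec_mulVec]
      exact key m hm x hx w hw
    | zero => rw [mulVec_zero]; exact W.zero_mem
    | add u v _ _ hu hv => rw [mulVec_add]; exact W.add_mem hu hv
    | smul c u _ hu => rw [mulVec_smul]; exact W.smul_mem c hu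
  rcases D.stable W hst with h0 | h0
  · exfalso
    apply hW₀
    rw [eq_bot_iff, ← h0]
    intro w hw
    exact Submodule.subset_span ⟨1, one_mem _, w, hw, by rw [one_mulVec]⟩
  · exact h0

namespace Dat

variable (D : Dat τ L h E Λ) (T : Three27 E)
include D T

/-- every element of `L` is the sum of its components of degree `2, 1, 0, -1, -2` -/
lemma five27 {x : Matrix n n ℂ} (hx : x ∈ L) : ∃ a ∈ Ld L h 2, ∃ b ∈ Ld L h 1, ∃ c ∈ Ld L h 0,
    ∃ d ∈ Ld L h (-1), ∃ f ∈ Ld L h (-2), x = a + b + c + d + f := by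
  classical
  refine ⟨_, D.cmp_mem_Ld hx 2, _, D.cmp_mem_Ld hx 1, _, D.cmp_mem_Ld hx 0, _, D.cmp_mem_Ld hx (-1), _,
    D.cmp_mem_Ld hx (-2), ?_⟩
  apply D.spec.ext
  intro μ ν
  simp only [mul_add, add_mul, D.spec.block_cmp]
  by_cases h1 : μ = 1 ∨ μ = 0 ∨ μ = -1
  · by_cases h2 : ν = 1 ∨ ν = 0 ∨ ν = -1
    · rcases h1 with rfl | rfl | rfl <;> rcases h2 with rfl | rfl | rfl <;> norm_num
    · push Not at h2
      rw [T ν h2.1 h2.2.1 h2.2.2]
      simp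
  · push Not at h1
    rw [T μ h1.1 h1.2.1 h1.2.2]
    simp

/-- The eigenspaces for `1` and `-1` are irreducible under the elements of degree zero. -/
lemma top_irr27 {ε : ℝ} (hε : ε = 1 ∨ ε = -1) {W₀ : Submodule ℂ (n → ℂ)} (hW₀ : W₀ ≠ ⊥)
    (h1 : ∀ w ∈ W₀, E ε *ᵥ w = w) (h0 : ∀ x ∈ Ld L h 0, ∀ w ∈ W₀, x *ᵥ w ∈ W₀)
    {v : n → ℂ} (hv : E ε *ᵥ v = v) : v ∈ W₀ := by
  set S : Set (Matrix n n ℂ) := {x | ∃ k : ℝ, (k = 1 ∨ k = 2) ∧ x ∈ Ld L h (-(ε * k))} with hS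
  have hkill : ∀ k : ℝ, (k = 1 ∨ k = 2) → ∀ x ∈ Ld L h (ε * k), ∀ w ∈ W₀, x *ᵥ w = 0 := by
    intro k hk x hx w hw
    have e1 := D.Ld_mul_E hx ε
    have e2 : E (ε + ε * k) = 0 := by
      rcases hε with rfl | rfl <;> rcases hk with rfl | rfl <;>
        exact T _ (by norm_num) (by norm_num) (by norm_num)
    rw [e2, zero_mul, zero_mul] at e1
    rw [← h1 w hw, mulVec_mulVec, e1, zero_mulVec]
  have hsub : ∀ w ∈ W₀, w ∈ Submodule.span ℂ {u | ∃ m ∈ Submonoid.closure S, ∃ w ∈ W₀, u = m *ᵥ w} :=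
    fun w hw => Submodule.subset_span ⟨1, one_mem _, w, hw, by rw [one_mulVec]⟩
  have hgen : ∀ k : ℝ, (k = 1 ∨ k = 2) → ∀ x ∈ Ld L h (-(ε * k)), ∀ w ∈ W₀,
      x *ᵥ w ∈ Submodule.span ℂ {u | ∃ m ∈ Submonoid.closure S, ∃ w ∈ W₀, u = m *ᵥ w} :=
    fun k hk x hx w hw => Submodule.subset_span ⟨x, Submonoid.subset_closure ⟨k, hk, hx⟩, w, hw, rfl⟩
  have hall : ∀ k : ℝ, (k = 1 ∨ k = 2 ∨ k = -1 ∨ k = -2) → ∀ x ∈ Ld L h k, ∀ w ∈ W₀,
      x *ᵥ w ∈ Submodule.span ℂ {u | ∃ m ∈ Submonoid.closure S, ∃ w ∈ W₀, u = m *ᵥ w} := by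
    intro k hk x hx w hw
    rcases hε with rfl | rfl
    · rcases hk with rfl | rfl | rfl | rfl
      · rw [hkill 1 (Or.inl rfl) x (by rwa [mul_one]) w hw]; exact Submodule.zero_mem _
      · rw [hkill 2 (Or.inr rfl) x (by rwa [one_mul]) w hw]; exact Submodule.zero_mem _
      · exact hgen 1 (Or.inl rfl) x (by rwa [mul_one]) w hw
      · exact hgen 2 (Or.inr rfl) x (by rwa [one_mul]) w hw
    · rcases hk with rfl | rfl | rfl | rfl
      · exact hgen 1 (Or.inl rfl) x (by rwa [mul_one, neg_neg]) w hw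
      · exact hgen 2 (Or.inr rfl) x (by rwa [neg_one_mul, neg_neg]) w hw
      · rw [hkill 1 (Or.inl rfl) x (by rwa [mul_one]) w hw]; exact Submodule.zero_mem _
      · rw [hkill 2 (Or.inr rfl) x (by rwa [neg_one_mul]) w hw]; exact Submodule.zero_mem _
  have htop := D.orbit27 (S := S) (W₀ := W₀) (fun x hx => by
      obtain ⟨k, _, hk⟩ := hx
      exact hk.1) hW₀ (by
      intro z hz w hw
      obtain ⟨a, ha, b, hb, c, hc, d, hd, f, hf, rfl⟩ := D.five27 T hz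
      rw [add_mulVec, add_mulVec, add_mulVec, add_mulVec]
      exact Submodule.add_mem _ (Submodule.add_mem _ (Submodule.add_mem _ (Submodule.add_mem _
        (hall 2 (by simp) a ha w hw) (hall 1 (by simp) b hb w hw)) (hsub _ (h0 c hc w hw)))
        (hall (-1) (by simp) d hd w hw)) (hall (-2) (by simp) f hf w hw))
  have hproj : ∀ m ∈ Submonoid.closure S, ∀ w ∈ W₀, E ε *ᵥ (m *ᵥ w) ∈ W₀ := by
    intro m hm
    induction hm using Submonoid.closure_induction_left with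
    | one => intro w hw; rw [one_mulVec, h1 w hw]; exact hw
    | mul_left s hs m hm ih =>
      intro w hw
      obtain ⟨k, hk, hx⟩ := hs
      have e1 : E ε * s = 0 := by
        have e2 := D.Ld_star27 hx
        rw [neg_neg] at e2
        have e3 := D.Ld_mul_E e2 ε
        have e4 : E (ε + ε * k) = 0 := by
          rcases hε with rfl | rfl <;> rcases hk with rfl | rfl <;>
            exact T _ (by norm_num) (by norm_num) (by norm_num)
        rw [e4, zero_mul, zero_mul] at e3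
        have e5 := congrArg conjTranspose e3
        rwa [conjTranspose_mul, conjTranspose_conjTranspose, conjTranspose_zero, D.spec.star] at e5
      rw [mulVec_mulVec, ← mul_assoc, e1, zero_mul, zero_mulVec]
      exact W₀.zero_mem
  have hv2 : v ∈ Submodule.span ℂ {u | ∃ m ∈ Submonoid.closure S, ∃ w ∈ W₀, u = m *ᵥ w} := by
    rw [htop]; exact Submodule.mem_top
  rw [← hv]
  clear hv
  induction hv2 using Submodule.span_induction with
  | mem u hu =>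
    obtain ⟨m, hm, w, hw, rfl⟩ := hu
    exact hproj m hm w hw
  | zero => rw [mulVec_zero]; exact W₀.zero_mem
  | add u v _ _ hu hv => rw [mulVec_add]; exact W₀.add_mem hu hv
  | smul c u _ hu => rw [mulVec_smul]; exact W₀.smul_mem c hu

/-- The complement of the kernel of `h` is irreducible under the even part of `L`. -/
theorem irrP27 (h2 : Ld L h 2 ≠ ⊥) {W : Submodule ℂ (n → ℂ)} (hW : W ≠ ⊥)
    (hE : ∀ w ∈ W, E 0 *ᵥ w = 0) (k0 : ∀ x ∈ Ld L h 0, ∀ w ∈ W, x *ᵥ w ∈ W)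
    (k2 : ∀ x ∈ Ld L h 2, ∀ w ∈ W, x *ᵥ w ∈ W) (km2 : ∀ x ∈ Ld L h (-2), ∀ w ∈ W, x *ᵥ w ∈ W)
    {v : n → ℂ} (hv : E 0 *ᵥ v = 0) : v ∈ W := by
  have hsplit : ∀ u : n → ℂ, E 0 *ᵥ u = 0 → u = E 1 *ᵥ u + E (-1) *ᵥ u := by
    intro u hu
    conv_lhs => rw [← one_mulVec u, ← D.sum327 T, add_mulVec, add_mulVec, hu, add_zero]
  have hEE : ∀ μ, E μ * E μ = E μ := fun μ => by rw [D.spec.mul, if_pos rfl]
  -- W is graded
  have hgr : ∀ w ∈ W, E 1 *ᵥ w ∈ W ∧ E (-1) *ᵥ w ∈ W := by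
    intro w hw
    have hh : h ∈ Ld L h 0 := ⟨D.mem, by simp⟩
    have e1 : h *ᵥ w = E 1 *ᵥ w - E (-1) *ᵥ w := by
      conv_lhs => rw [hsplit w (hE w hw)]
      rw [mulVec_add, mulVec_mulVec, mulVec_mulVec, D.spec.h_mul, D.spec.h_mul]
      simp [neg_mulVec, sub_eq_add_neg]
    have e2 := k0 h hh w hw
    rw [e1] at e2
    have e3 : E 1 *ᵥ w + E (-1) *ᵥ w ∈ W := by rw [← hsplit w (hE w hw)]; exact hw
    have e4 : E 1 *ᵥ w ∈ W := by
      have e5 := W.smul_mem (1 / 2 : ℂ) (W.add_mem e2 e3)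
      have e6 : (1 / 2 : ℂ) • (E 1 *ᵥ w - E (-1) *ᵥ w + (E 1 *ᵥ w + E (-1) *ᵥ w)) = E 1 *ᵥ w := by
        have : E 1 *ᵥ w - E (-1) *ᵥ w + (E 1 *ᵥ w + E (-1) *ᵥ w) = (2 : ℂ) • (E 1 *ᵥ w) := by
          rw [two_smul]; abel
        rw [this, smul_smul]
        norm_num
      rwa [e6] at e5
    refine ⟨e4, ?_⟩
    have e7 := W.sub_mem e3 e4
    rwa [add_sub_cancel_left] at e7
  -- the graded pieces are zero or everything
  have hpiece : ∀ ε : ℝ, (ε = 1 ∨ ε = -1) → (∃ w ∈ W, E ε *ᵥ w ≠ 0) → ∀ u, E ε *ᵥ u = u → u ∈ W := by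
    intro ε hε hex u hu
    obtain ⟨w, hw, hw0⟩ := hex
    have hEW : ∀ w ∈ W, E ε *ᵥ w ∈ W := by
      intro w hw
      rcases hε with rfl | rfl
      · exact (hgr w hw).1
      · exact (hgr w hw).2
    let W₁ : Submodule ℂ (n → ℂ) :=
      { carrier := {w | w ∈ W ∧ E ε *ᵥ w = w}
        add_mem' := fun {a b} ha hb => ⟨W.add_mem ha.1 hb.1, by rw [mulVec_add, ha.2, hb.2]⟩
        zero_mem' := ⟨W.zero_mem, by rw [mulVec_zero]⟩
        smul_mem' := fun c a ha => ⟨W.smul_mem c ha.1, by rw [mulVec_smul, ha.2]⟩ }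
    have hmem : E ε *ᵥ w ∈ W₁ := ⟨hEW w hw, by rw [mulVec_mulVec, hEE]⟩
    have hne : W₁ ≠ ⊥ := by
      intro h0
      rw [h0, Submodule.mem_bot] at hmem
      exact hw0 hmem
    exact (D.top_irr27 T hε hne (fun w hw => hw.2) (fun x hx w hw => ⟨k0 x hx w hw.1, by
      have e1 := D.Ld_mul_E hx ε
      rw [add_zero] at e1
      have e2 : E ε * x = x * E ε := by
        have e3 := D.Ld_star27 hx
        rw [neg_zero] at e3
        have e4 := D.Ld_mul_E e3 ε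
        rw [add_zero] at e4
        have e5 := congrArg conjTranspose e4
        rw [conjTranspose_mul, conjTranspose_mul, conjTranspose_mul, conjTranspose_conjTranspose,
          D.spec.star, ← mul_assoc] at e5
        rw [e5, ← e1]
      rw [mulVec_mulVec, e2, ← mulVec_mulVec, hw.2]⟩) hu).1
  obtain ⟨y, hy, hy0⟩ := Submodule.exists_mem_ne_zero_of_ne_bot h2
  have hys : yᴴ ∈ Ld L h (-2) := D.Ld_star27 hy
  obtain ⟨w, hw, hw0⟩ := Submodule.exists_mem_ne_zero_of_ne_bot hW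
  have hysne : yᴴ ≠ 0 := by
    intro h0
    apply hy0
    have := congrArg conjTranspose h0
    rwa [conjTranspose_conjTranspose, conjTranspose_zero] at this
  -- a matrix that does not vanish moves something
  have hmove : ∀ x : Matrix n n ℂ, x ≠ 0 → ∃ u, x *ᵥ u ≠ 0 := by
    intro x hx
    by_contra hcon
    push Not at hcon
    apply hx
    apply mat_ext
    intro u
    rw [hcon u, zero_mulVec]
  have h11 : (∃ w ∈ W, E 1 *ᵥ w ≠ 0) → ∃ w ∈ W, E (-1) *ᵥ w ≠ 0 := by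
    intro hex
    obtain ⟨u, hu⟩ := hmove _ hysne
    have e1 := D.Ldm227 T hys
    have e2 : E 1 *ᵥ (E 1 *ᵥ u) = E 1 *ᵥ u := by rw [mulVec_mulVec, hEE]
    have e3 := hpiece 1 (Or.inl rfl) hex _ e2
    refine ⟨yᴴ *ᵥ (E 1 *ᵥ u), km2 _ hys _ e3, ?_⟩
    rw [mulVec_mulVec, mulVec_mulVec, e1]
    exact hu
  have h12 : (∃ w ∈ W, E (-1) *ᵥ w ≠ 0) → ∃ w ∈ W, E 1 *ᵥ w ≠ 0 := by
    intro hex
    obtain ⟨u, hu⟩ := hmove _ hy0
    have e1 := D.Ld227 T hy
    have e2 : E (-1) *ᵥ (E (-1) *ᵥ u) = E (-1) *ᵥ u := by rw [mulVec_mulVec, hEE]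
    have e3 := hpiece (-1) (Or.inr rfl) hex _ e2
    refine ⟨y *ᵥ (E (-1) *ᵥ u), k2 _ hy _ e3, ?_⟩
    rw [mulVec_mulVec, mulVec_mulVec, e1]
    exact hu
  have hboth : (∃ w ∈ W, E 1 *ᵥ w ≠ 0) ∧ ∃ w ∈ W, E (-1) *ᵥ w ≠ 0 := by
    by_cases h1 : E 1 *ᵥ w = 0
    · have h3 : E (-1) *ᵥ w ≠ 0 := by
        intro h3
        apply hw0
        rw [hsplit w (hE w hw), h1, h3, add_zero]
      exact ⟨h12 ⟨w, hw, h3⟩, ⟨w, hw, h3⟩⟩
    · exact ⟨⟨w, hw, h1⟩, h11 ⟨w, hw, h1⟩⟩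
  rw [hsplit v hv]
  exact W.add_mem (hpiece 1 (Or.inl rfl) hboth.1 _ (by rw [mulVec_mulVec, hEE]))
    (hpiece (-1) (Or.inr rfl) hboth.2 _ (by rw [mulVec_mulVec, hEE]))

end Dat

end MH
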