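import Pool.Agent.Helper27.GP.Scal

/-!
If `L` is simple, the minimal projection has rank one and the off-diagonal part of `L` is everything.
-/

open Matrix

namespace MH

variable {n : Type*} [Fintype n] [DecidableEq n]
variable {h : Matrix n n ℂ} {E : ℝ → Matrix n n ℂ} {Λ : Finset ℝ}
variable {τ : Matrix n n ℂ →ₗ[ℂ] Matrix n n ℂ} {L : Submodule ℂ (Matrix n n ℂ)}

/-- The odd part of `L`. -/
def OO27 (τ : Matrix n n ℂ →ₗ[ℂ] Matrix n n ℂ) (L : Submodule ℂ (Matrix n n ℂ))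
    (E : ℝ → Matrix n n ℂ) : Submodule ℂ (Matrix n n ℂ) where
  carrier := {x | ∃ z ∈ XX τ L E, x = z - τ z}
  add_mem' := by
    rintro a b ⟨z, hz, rfl⟩ ⟨w, hw, rfl⟩
    exact ⟨z + w, add_mem hz hw, by rw [map_add]; abel⟩
  zero_mem' := ⟨0, zero_mem _, by simp⟩
  smul_mem' := by
    rintro c a ⟨z, hz, rfl⟩
    exact ⟨c • z, Submodule.smul_mem _ c hz, by rw [map_smul, smul_sub]⟩

namespace Dat

variable (D : Dat τ L h E Λ) (T : Three27 E)
include D

lemma OO_L27 {x : Matrix n n ℂ} (hx : x ∈ OO27 τ L E) : x ∈ L := by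
  obtain ⟨z, hz, rfl⟩ := hx
  exact hz.1

lemma OO_E27 {x : Matrix n n ℂ} (hx : x ∈ OO27 τ L E) : E 0 * x + x * E 0 = x := by
  obtain ⟨z, hz, rfl⟩ := hx
  rw [mul_sub, sub_mul, hz.2.1, hz.2.2, D.E_tau_XX hz, D.tau_XX_E hz]
  abel

lemma OO_E027 {x : Matrix n n ℂ} (hx : x ∈ OO27 τ L E) : E 0 * x * E 0 = 0 := by
  obtain ⟨z, hz, rfl⟩ := hx
  rw [mul_sub, sub_mul, hz.2.1, zero_mul, mul_assoc, D.tau_XX_E hz, mul_zero, sub_zero]

lemma OO_P27 {x : Matrix n n ℂ} (hx : x ∈ OO27 τ L E) : (1 - E 0) * x * (1 - E 0) = 0 := by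
  have h1 := D.OO_E27 hx
  have h2 := D.OO_E027 hx
  have : (1 - E 0) * x * (1 - E 0) = x - (E 0 * x + x * E 0) + E 0 * x * E 0 := by noncomm_ring
  rw [this, h1, h2]
  abel

lemma mem_OO27 {x : Matrix n n ℂ} (hx : x ∈ L) (hE : E 0 * x + x * E 0 = x) : x ∈ OO27 τ L E := by
  have h00 : E 0 * x * E 0 = 0 := by
    have h1 : E 0 * (E 0 * x + x * E 0) = E 0 * x := by rw [hE]
    rw [mul_add, ← mul_assoc, D.E00, ← mul_assoc] at h1
    exact left_eq_add.mp h1.symm
  have e1 : τ (x * E 0) = -(E 0 * x) := by rw [D.inv.mul, D.tauE0, D.sk x hx, mul_neg]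
  refine ⟨x * E 0, ⟨?_, ?_, ?_⟩, ?_⟩
  · rw [e1, sub_neg_eq_add, add_comm, hE]
    exact hx
  · rw [← mul_assoc, h00]
  · rw [mul_assoc, D.E00]
  · rw [e1, sub_neg_eq_add, add_comm, hE]

/-- closed under `z ↦ -τ (zᴴ)` -/
lemma XX_hat27 {z : Matrix n n ℂ} (hz : z ∈ XX τ L E) : -τ (zᴴ) ∈ XX τ L E := by
  refine ⟨?_, ?_, ?_⟩
  · have h1 := D.st _ hz.1
    have h2 : (z - τ z)ᴴ = -τ (zᴴ) - τ (-τ (zᴴ)) := by
      rw [conjTranspose_sub, map_neg, D.inv.inv, D.inv.star]
      abel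
    rwa [h2] at h1
  · have h1 := congrArg conjTranspose hz.2.1
    rw [conjTranspose_mul, D.spec.star, conjTranspose_zero] at h1
    have h2 := congrArg τ h1
    rw [D.inv.mul, D.tauE0, map_zero] at h2
    rw [mul_neg, h2, neg_zero]
  · have h1 := congrArg conjTranspose hz.2.2
    rw [conjTranspose_mul, D.spec.star] at h1
    have h2 := congrArg τ h1
    rw [D.inv.mul, D.tauE0] at h2
    rw [neg_mul, h2]

/-- the bracket of an even element with an odd one is odd -/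
lemma OO_even27 {z x : Matrix n n ℂ} (hz : z ∈ L) (hc : E 0 * z = z * E 0) (hx : x ∈ OO27 τ L E) :
    z * x - x * z ∈ OO27 τ L E := by
  have h1 := D.OO_E27 hx
  apply D.mem_OO27 (D.br z hz x (D.OO_L27 hx))
  have e1 : E 0 * (z * x - x * z) + (z * x - x * z) * E 0 =
      (E 0 * z) * x - E 0 * x * z + z * (x * E 0) - x * (z * E 0) := by noncomm_ring
  rw [e1, hc, ← hc]
  calc E 0 * z * x - E 0 * x * z + z * (x * E 0) - x * (E 0 * z)
      = (E 0 * z) * x + z * (x * E 0) - (E 0 * x + x * E 0) * z := by noncomm_ring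
    _ = (z * E 0) * x + z * (x * E 0) - (E 0 * x + x * E 0) * z := by rw [hc]
    _ = z * (E 0 * x + x * E 0) - (E 0 * x + x * E 0) * z := by noncomm_ring
    _ = z * x - x * z := by rw [h1]

lemma OO_comm27 {x y : Matrix n n ℂ} (hx : x ∈ OO27 τ L E) (hy : y ∈ OO27 τ L E) :
    E 0 * (x * y - y * x) = (x * y - y * x) * E 0 := by
  have h1 := D.OO_E27 hx
  have h2 := D.OO_E27 hy
  have k1 : E 0 * x = x - x * E 0 := by
    conv_rhs => rw [← h1]
    have := D.OO_E027 hx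
    rw [add_mul, this, mul_assoc, D.E00]
    abel
  have k2 : E 0 * y = y - y * E 0 := by
    conv_rhs => rw [← h2]
    have := D.OO_E027 hy
    rw [add_mul, this, mul_assoc, D.E00]
    abel
  have e1 : E 0 * (x * y - y * x) = (E 0 * x) * y - (E 0 * y) * x := by noncomm_ring
  rw [e1, k1, k2]
  have e2 : (x - x * E 0) * y - (y - y * E 0) * x = x * (y - E 0 * y) - y * (x - E 0 * x) := by
    noncomm_ring
  rw [e2, k1, k2]
  noncomm_ring

include T

/-- every element of `L` is the sum of an even and an odd one -/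
lemma even_odd27 {x : Matrix n n ℂ} (hx : x ∈ L) : ∃ a ∈ L, ∃ b ∈ OO27 τ L E, E 0 * a = a * E 0 ∧ x = a + b := by
  obtain ⟨a, ha, b, hb, c, hc, d, hd, f, hf, rfl⟩ := D.five27 T hx
  have ha' := D.gen_zero27 T (Or.inl ha)
  have hf' := D.gen_zero27 T (Or.inr hf)
  refine ⟨a + c + f, L.add_mem (L.add_mem ha.1 hc.1) hf.1, b + d, ?_, ?_, by abel⟩
  · have hodd : ∀ ρ : ℝ, (ρ = 1 ∨ ρ = -1) → ∀ x ∈ Ld L h ρ, x ∈ OO27 τ L E := by
      intro ρ hρ x hx
      apply D.mem_OO27 hx.1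
      apply D.spec.ext
      intro μ ν
      rw [mul_add, add_mul]
      have e1 : E μ * (E 0 * x) * E ν = if μ = 0 then E μ * x * E ν else 0 := by
        rw [← mul_assoc, D.spec.mul]
        split_ifs with h1
        · rfl
        · rw [zero_mul, zero_mul]
      have e2 : E μ * (x * E 0) * E ν = if ν = 0 then E μ * x * E ν else 0 := by
        rw [mul_assoc, mul_assoc x, D.spec.mul, ← mul_assoc]
        split_ifs with h1 h2
        · rw [h1]
        · exact absurd h1.symm h2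
        · rename_i h3
          exact absurd h3.symm h1
        · rw [mul_zero]
      rw [e1, e2]
      by_cases hd : μ - ν = ρ
      · rcases hρ with rfl | rfl
        · by_cases h1 : μ = 0
          · rw [if_pos h1, if_neg (by rintro rfl; rw [h1] at hd; norm_num at hd), add_zero]
          · by_cases h2 : ν = 0
            · rw [if_neg h1, if_pos h2, zero_add]
            · rw [if_neg h1, if_neg h2, add_zero]
              by_cases h3 : μ = 1
              · exfalso; apply h2; linarith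
              · by_cases h4 : μ = -1
                · rw [T ν (by intro h5; linarith) h2 (by intro h5; apply h1; linarith), mul_zero]
                · rw [T μ h3 h1 h4, zero_mul, zero_mul]
        · by_cases h1 : μ = 0
          · rw [if_pos h1, if_neg (by rintro rfl; rw [h1] at hd; norm_num at hd), add_zero]
          · by_cases h2 : ν = 0
            · rw [if_neg h1, if_pos h2, zero_add]
            · rw [if_neg h1, if_neg h2, add_zero]
              by_cases h3 : μ = 1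
              · rw [T ν (by intro h5; linarith) h2 (by intro h5; linarith), mul_zero]
              · by_cases h4 : μ = -1
                · exfalso; apply h2; linarith
                · rw [T μ h3 h1 h4, zero_mul, zero_mul]
      · rw [D.Ld_block hx hd]
        simp
    exact Submodule.add_mem _ (hodd 1 (Or.inl rfl) b hb) (hodd (-1) (Or.inr rfl) d hd)
  · rw [mul_add, mul_add, add_mul, add_mul, ha'.2.1, ha'.2.2, hf'.2.1, hf'.2.2, D.Ld_zero_comm hc]

/-- `L` is generated by its odd part if it is simple. -/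
theorem odd_gen27 (hsmp : ∀ K ≤ L, (∀ X ∈ L, ∀ Y ∈ K, X * Y - Y * X ∈ K) → K = ⊥ ∨ K = L)
    (h0 : OO27 τ L E ≠ ⊥) :
    L ≤ OO27 τ L E ⊔ Submodule.span ℂ {w | ∃ x ∈ OO27 τ L E, ∃ y ∈ OO27 τ L E, w = x * y - y * x} := by
  set B : Submodule ℂ (Matrix n n ℂ) :=
    Submodule.span ℂ {w | ∃ x ∈ OO27 τ L E, ∃ y ∈ OO27 τ L E, w = x * y - y * x} with hB
  have hBmem : ∀ x ∈ OO27 τ L E, ∀ y ∈ OO27 τ L E, x * y - y * x ∈ B := fun x hx y hy =>
    Submodule.subset_span ⟨x, hx, y, hy, rfl⟩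
  have hBL : B ≤ L := by
    rw [hB, Submodule.span_le]
    rintro w ⟨x, hx, y, hy, rfl⟩
    exact D.br x (D.OO_L27 hx) y (D.OO_L27 hy)
  have hBc : ∀ w ∈ B, E 0 * w = w * E 0 := by
    intro w hw
    induction hw using Submodule.span_induction with
    | mem w hw =>
      obtain ⟨x, hx, y, hy, rfl⟩ := hw
      exact D.OO_comm27 hx hy
    | zero => simp
    | add u v _ _ hu hv => rw [mul_add, add_mul, hu, hv]
    | smul c u _ hu => rw [mul_smul_comm, smul_mul_assoc, hu]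
  have hevenB : ∀ z ∈ L, E 0 * z = z * E 0 → ∀ w ∈ B, z * w - w * z ∈ B := by
    intro z hz hc w hw
    induction hw using Submodule.span_induction with
    | mem w hw =>
      obtain ⟨x, hx, y, hy, rfl⟩ := hw
      have e1 : z * (x * y - y * x) - (x * y - y * x) * z =
          ((z * x - x * z) * y - y * (z * x - x * z)) + (x * (z * y - y * z) - (z * y - y * z) * x) := by
        noncomm_ring
      rw [e1]
      exact B.add_mem (hBmem _ (D.OO_even27 hz hc hx) y hy) (hBmem x hx _ (D.OO_even27 hz hc hy))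
    | zero => simp
    | add u v _ _ hu hv =>
      have : z * (u + v) - (u + v) * z = (z * u - u * z) + (z * v - v * z) := by noncomm_ring
      rw [this]; exact B.add_mem hu hv
    | smul c u _ hu =>
      have : z * (c • u) - (c • u) * z = c • (z * u - u * z) := by
        rw [mul_smul_comm, smul_mul_assoc, smul_sub]
      rw [this]; exact B.smul_mem c hu
  rcases hsmp (OO27 τ L E ⊔ B) (sup_le (fun x hx => D.OO_L27 hx) hBL) (by
    intro X hX Y hY
    obtain ⟨y, hy, w, hw, rfl⟩ := Submodule.mem_sup.mp hY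
    obtain ⟨a, ha, b, hb, hc, rfl⟩ := D.even_odd27 T hX
    have e1 : (a + b) * (y + w) - (y + w) * (a + b) =
        ((a * y - y * a) - (w * b - b * w)) + ((a * w - w * a) + (b * y - y * b)) := by noncomm_ring
    rw [e1]
    exact Submodule.add_mem_sup (Submodule.sub_mem _ (D.OO_even27 ha hc hy)
      (D.OO_even27 (hBL hw) (hBc w hw) hb)) (B.add_mem (hevenB a ha hc w hw) (hBmem b hb y hy))) with h1 | h1
  · exfalso
    apply h0
    rw [eq_bot_iff, ← h1]
    exact le_sup_left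
  · rw [h1]

/-- the odd part is not zero if `h` has a kernel -/
lemma OO_ne27 (hE0 : E 0 ≠ 0) (hE1 : E 0 ≠ 1) : OO27 τ L E ≠ ⊥ := by
  intro h0
  have hcomm : ∀ x ∈ L, E 0 * x = x * E 0 := by
    intro x hx
    obtain ⟨a, ha, b, hb, hc, rfl⟩ := D.even_odd27 T hx
    rw [h0, Submodule.mem_bot] at hb
    rw [hb, add_zero, hc]
  obtain ⟨c, hc⟩ := D.irr (E 0) hcomm
  have h1 := D.E00
  rw [hc, smul_mul_smul_comm, one_mul] at h1
  have h2 : (c * c - c) • (1 : Matrix n n ℂ) = 0 := by rw [sub_smul, h1, sub_self]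
  rcases smul_eq_zero.mp h2 with h3 | h3
  · have h4 : c * (c - 1) = 0 := by linear_combination h3
    rcases mul_eq_zero.mp h4 with h5 | h5
    · apply hE0; rw [hc, h5, zero_smul]
    · apply hE1; rw [hc, sub_eq_zero.mp h5, one_smul]
  · apply hE0; rw [hc, h3, smul_zero]

end Dat

namespace UB27

variable {e : Matrix n n ℂ} {d : ℕ} {u : Fin d → Matrix n n ℂ}
variable (D : Dat τ L h E Λ) (T : Three27 E) (P : MinB27 L h e) (U : UB27 L h E e u)
include D T P U

/-- the products `x yᴴ` of off-diagonal elements are in the algebra -/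
lemma prod_mem (hd : 3 ≤ d) {x y : Matrix n n ℂ} (hx : x ∈ XX τ L E) (hy : y ∈ XX τ L E) :
    x * yᴴ ∈ BB27 L h := by
  have hl : ∀ {z : Matrix n n ℂ}, z ∈ XX τ L E → ∀ i, (u i)ᴴ * z ∈ XX τ L E ∧ e * ((u i)ᴴ * z) = (u i)ᴴ * z :=
    fun {z} hz i => ⟨D.mul_XX27 T hz (D.BB_star27 (U.mem i)), by rw [← mul_assoc, U.left P]⟩
  have h1 : x * yᴴ = ∑ i, ∑ j, u i * ((u i)ᴴ * x * ((u j)ᴴ * y)ᴴ) * (u j)ᴴ := by
    conv_lhs => rw [U.expand D T P hx.2.1, U.expand D T P hy.2.1, conjTranspose_sum, Finset.sum_mul]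
    refine Finset.sum_congr rfl fun i _ => ?_
    rw [Finset.mul_sum]
    refine Finset.sum_congr rfl fun j _ => ?_
    rw [conjTranspose_mul (u j)]
    noncomm_ring
  rw [h1]
  refine sum_mem fun i _ => sum_mem fun j _ => ?_
  obtain ⟨c, hc⟩ := U.scal D T P hd (hl hx i).1 (hl hx i).2 (hl hy j).1 (hl hy j).2
  rw [hc, mul_smul_comm, smul_mul_assoc, U.right]
  exact SMulMemClass.smul_mem _ (mul_mem (U.mem i) (D.BB_star27 (U.mem j)))

/-- The even part of a simple `L` acts through the algebra. -/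
theorem L_in (hd : 3 ≤ d) (hsmp : ∀ K ≤ L, (∀ X ∈ L, ∀ Y ∈ K, X * Y - Y * X ∈ K) → K = ⊥ ∨ K = L)
    (h0 : OO27 τ L E ≠ ⊥) {x : Matrix n n ℂ} (hx : x ∈ L) : (1 - E 0) * x * (1 - E 0) ∈ BB27 L h := by
  have hmem := D.odd_gen27 T hsmp h0 hx
  obtain ⟨y, hy, w, hw, rfl⟩ := Submodule.mem_sup.mp hmem
  have e1 : (1 - E 0) * (y + w) * (1 - E 0) = (1 - E 0) * w * (1 - E 0) := by
    rw [mul_add, add_mul, D.OO_P27 hy, zero_add]
  rw [e1]
  clear e1 hx hmem hy
  induction hw using Submodule.span_induction with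
  | mem w hw =>
    obtain ⟨a, ⟨z, hz, rfl⟩, b, ⟨y, hy, rfl⟩, rfl⟩ := hw
    obtain ⟨k1, _, k3, k4, k5, k6⟩ := D.odd_bracket27 hz (D.XX_hat27 hy)
    have k7 : (-τ (yᴴ))ᴴ - τ ((-τ (yᴴ))ᴴ) = y - τ y := by
      rw [conjTranspose_neg, ← D.inv.star, conjTranspose_conjTranspose, map_neg, D.inv.inv]
      abel
    rw [k7] at k1
    have f1 : ∀ A : Matrix n n ℂ, E 0 * A = 0 → A * E 0 = 0 → (1 - E 0) * A * (1 - E 0) = A := by
      intro A h1 h2
      rw [sub_mul, one_mul, h1, sub_zero, mul_sub, mul_one, h2, sub_zero]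
    have f2 : ∀ A : Matrix n n ℂ, E 0 * A = A → (1 - E 0) * A * (1 - E 0) = 0 := by
      intro A h1
      rw [sub_mul, one_mul, h1, sub_self, zero_mul]
    have f3 : ∀ A B : Matrix n n ℂ, (1 - E 0) * (A - B) * (1 - E 0) =
        (1 - E 0) * A * (1 - E 0) - (1 - E 0) * B * (1 - E 0) := by
      intro A B
      noncomm_ring
    rw [k1, f3, f1 _ k3 k4, f2 _ k5, sub_zero]
    have h1 := U.prod_mem D T P hd hz (D.XX_hat27 hy)
    exact sub_mem h1 (D.BB_tau27 h1)
  | zero => simp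
  | add a b _ _ ha hb => rw [mul_add, add_mul]; exact add_mem ha hb
  | smul c a _ ha => rw [mul_smul_comm, smul_mul_assoc]; exact SMulMemClass.smul_mem c ha

/-- The minimal projection has rank one. -/
theorem rank_one (hd : 3 ≤ d) (h2 : Ld L h 2 ≠ ⊥)
    (hsmp : ∀ K ≤ L, (∀ X ∈ L, ∀ Y ∈ K, X * Y - Y * X ∈ K) → K = ⊥ ∨ K = L)
    (h0 : OO27 τ L E ≠ ⊥) (Y : Matrix n n ℂ) : ∃ c : ℂ, e * Y * e = c • e := by
  obtain ⟨v, hv⟩ : ∃ v, e *ᵥ v ≠ 0 := by
    by_contra hcon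
    push Not at hcon
    apply P.ne
    apply Dat.mat_ext
    intro u
    rw [hcon u, zero_mulVec]
  let W : Submodule ℂ (n → ℂ) :=
    { carrier := {w | ∃ a ∈ BB27 L h, w = a *ᵥ (e *ᵥ v)}
      add_mem' := by
        rintro _ _ ⟨a, ha, rfl⟩ ⟨b, hb, rfl⟩
        exact ⟨a + b, add_mem ha hb, by rw [add_mulVec]⟩
      zero_mem' := ⟨0, zero_mem _, by rw [zero_mulVec]⟩
      smul_mem' := by
        rintro c _ ⟨a, ha, rfl⟩
        exact ⟨c • a, SMulMemClass.smul_mem c ha, by rw [smul_mulVec]⟩ }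
  have hW0 : W ≠ ⊥ := by
    intro h0
    apply hv
    have : e *ᵥ v ∈ W := ⟨e, P.mem, by rw [mulVec_mulVec, P.idem]⟩
    rwa [h0, Submodule.mem_bot] at this
  have hBW : ∀ b ∈ BB27 L h, ∀ w ∈ W, b *ᵥ w ∈ W := by
    rintro b hb _ ⟨a, ha, rfl⟩
    exact ⟨b * a, mul_mem hb ha, by rw [mulVec_mulVec _ b a]⟩
  have hall : ∀ w : n → ℂ, E 0 *ᵥ w = 0 → w ∈ W := fun w hw => D.irrP27 T h2 hW0 (by
    rintro _ ⟨a, ha, rfl⟩
    rw [mulVec_mulVec, D.BB_left27 T ha, zero_mulVec]) (by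
    rintro x hx _ ⟨a, ha, rfl⟩
    have h1 := U.L_in D T P hd hsmp h0 hx.1
    refine ⟨(1 - E 0) * x * (1 - E 0) * a, mul_mem h1 ha, ?_⟩
    rw [mulVec_mulVec]
    congr 1
    have h3 : (1 - E 0) * x = x * (1 - E 0) := by
      rw [sub_mul, mul_sub, one_mul, mul_one, D.Ld_zero_comm hx]
    have h4 : (1 - E 0) * a = a := by rw [sub_mul, one_mul, D.BB_left27 T ha, sub_zero]
    rw [h3, mul_assoc x, D.idP27 T, mul_assoc, h4]) (fun x hx => hBW x (D.mem_BB227 hx))
    (fun x hx => hBW x (D.mem_BBm227 hx)) hw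
  have hline : ∀ w : n → ℂ, ∃ c : ℂ, e *ᵥ w = c • (e *ᵥ v) := by
    intro w
    obtain ⟨a, ha, haw⟩ := hall (e *ᵥ w) (by rw [mulVec_mulVec, D.BB_left27 T P.mem, zero_mulVec])
    obtain ⟨c, hc⟩ := P.min a ha
    refine ⟨c, ?_⟩
    calc e *ᵥ w = e *ᵥ (e *ᵥ w) := by rw [mulVec_mulVec, P.idem]
      _ = (e * a * e) *ᵥ v := by rw [haw, mulVec_mulVec, mulVec_mulVec]
      _ = c • (e *ᵥ v) := by rw [hc, smul_mulVec]
  choose φ hφ using hline
  refine ⟨φ (Y *ᵥ (e *ᵥ v)), ?_⟩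
  apply Dat.mat_ext
  intro w
  rw [smul_mulVec, ← mulVec_mulVec, ← mulVec_mulVec, hφ w, mulVec_smul, mulVec_smul, hφ (Y *ᵥ (e *ᵥ v)),
    smul_smul, smul_smul, mul_comm]

end UB27

end MH
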