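import Pool.Agent.Helper27.GP.Unit

/-!
The scalar products of the off-diagonal part are multiples of the minimal projection.
-/

open Matrix

namespace MH

variable {n : Type*} [Fintype n] [DecidableEq n]
variable {h : Matrix n n ℂ} {E : ℝ → Matrix n n ℂ} {Λ : Finset ℝ}
variable {τ : Matrix n n ℂ →ₗ[ℂ] Matrix n n ℂ} {L : Submodule ℂ (Matrix n n ℂ)}

namespace Dat

variable (D : Dat τ L h E Λ) (T : Three27 E)
include D T

/-- an element of `L` that commutes with `E 0` is even -/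
lemma even_parts27 {x : Matrix n n ℂ} (hx : x ∈ L) (hc : E 0 * x = x * E 0) : ∃ a ∈ Ld L h 2, ∃ c ∈ Ld L h 0,
    ∃ f ∈ Ld L h (-2), x = a + c + f := by
  classical
  refine ⟨_, D.cmp_mem_Ld hx 2, _, D.cmp_mem_Ld hx 0, _, D.cmp_mem_Ld hx (-2), ?_⟩
  have k1 : ∀ μ : ℝ, μ ≠ 0 → E μ * x * E 0 = 0 := by
    intro μ hμ
    rw [mul_assoc, ← hc, ← mul_assoc, D.spec.mul, if_neg hμ, zero_mul]
  have k2 : ∀ μ : ℝ, μ ≠ 0 → E 0 * x * E μ = 0 := by
    intro μ hμ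
    rw [hc, mul_assoc, D.spec.mul, if_neg (Ne.symm hμ), mul_zero]
  apply D.spec.ext
  intro μ ν
  simp only [mul_add, add_mul, D.spec.block_cmp]
  by_cases h1 : μ = 1 ∨ μ = 0 ∨ μ = -1
  · by_cases h2 : ν = 1 ∨ ν = 0 ∨ ν = -1
    · rcases h1 with rfl | rfl | rfl <;> rcases h2 with rfl | rfl | rfl
      · norm_num
      · rw [k1 1 (by norm_num)]; norm_num
      · norm_num
      · rw [k2 1 (by norm_num)]; norm_num
      · norm_num
      · rw [k2 (-1) (by norm_num)]; norm_num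
      · norm_num
      · rw [k1 (-1) (by norm_num)]; norm_num
      · norm_num
    · push Not at h2
      rw [T ν h2.1 h2.2.1 h2.2.2]
      simp
  · push Not at h1
    rw [T μ h1.1 h1.2.1 h1.2.2]
    simp

/-- the even part of `L` normalises the algebra -/
lemma even_bracket27 {x b : Matrix n n ℂ} (hx : x ∈ L) (hc : E 0 * x = x * E 0) (hb : b ∈ BB27 L h) :
    x * b - b * x ∈ BB27 L h := by
  obtain ⟨a, ha, c, hc0, f, hf, rfl⟩ := D.even_parts27 T hx hc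
  have e1 : (a + c + f) * b - b * (a + c + f) =
      (a * b - b * a) + (c * b - b * c) + (f * b - b * f) := by noncomm_ring
  rw [e1]
  exact add_mem (add_mem (sub_mem (mul_mem (D.mem_BB227 ha) hb) (mul_mem hb (D.mem_BB227 ha)))
    (D.BB_bracket27 hc0 hb)) (sub_mem (mul_mem (D.mem_BBm227 hf) hb) (mul_mem hb (D.mem_BBm227 hf)))

omit T in
/-- the bracket of two off-diagonal elements -/
lemma odd_bracket27 {x y : Matrix n n ℂ} (hx : x ∈ XX τ L E) (hy : y ∈ XX τ L E) :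
    (x - τ x) * (yᴴ - τ (yᴴ)) - (yᴴ - τ (yᴴ)) * (x - τ x) =
      (x * yᴴ - τ (x * yᴴ)) - (yᴴ * x - τ (yᴴ * x)) ∧
    (x * yᴴ - τ (x * yᴴ)) - (yᴴ * x - τ (yᴴ * x)) ∈ L ∧
    E 0 * (x * yᴴ - τ (x * yᴴ)) = 0 ∧ (x * yᴴ - τ (x * yᴴ)) * E 0 = 0 ∧
    E 0 * (yᴴ * x - τ (yᴴ * x)) = yᴴ * x - τ (yᴴ * x) ∧
    (yᴴ * x - τ (yᴴ * x)) * E 0 = yᴴ * x - τ (yᴴ * x) := by
  have a1 : yᴴ * E 0 = 0 := by
    have := congrArg conjTranspose hy.2.1
    rwa [conjTranspose_mul, D.spec.star, conjTranspose_zero] at this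
  have a2 : E 0 * yᴴ = yᴴ := by
    have := congrArg conjTranspose hy.2.2
    rwa [conjTranspose_mul, D.spec.star] at this
  have a3 : E 0 * τ (yᴴ) = 0 := by
    have := congrArg τ a1
    rwa [D.inv.mul, D.tauE0, map_zero] at this
  have a4 : τ (yᴴ) * E 0 = τ (yᴴ) := by
    have := congrArg τ a2
    rwa [D.inv.mul, D.tauE0] at this
  have b1 := D.tau_XX_E hx
  have b2 := D.E_tau_XX hx
  have f1 : x * τ (yᴴ) = 0 := by rw [← hx.2.2, mul_assoc, a3, mul_zero]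
  have f2 : τ x * yᴴ = 0 := by rw [← a2, ← mul_assoc, b1, zero_mul]
  have f3 : yᴴ * τ x = 0 := by rw [← b2, ← mul_assoc, a1, zero_mul]
  have f4 : τ (yᴴ) * x = 0 := by rw [← a4, mul_assoc, hx.2.1, mul_zero]
  have e1 : (x - τ x) * (yᴴ - τ (yᴴ)) - (yᴴ - τ (yᴴ)) * (x - τ x) =
      (x * yᴴ - τ (x * yᴴ)) - (yᴴ * x - τ (yᴴ * x)) := by
    rw [D.inv.mul, D.inv.mul]
    have : (x - τ x) * (yᴴ - τ (yᴴ)) - (yᴴ - τ (yᴴ)) * (x - τ x)
        = x * yᴴ - x * τ (yᴴ) - τ x * yᴴ + τ x * τ (yᴴ) - yᴴ * x + yᴴ * τ x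
          + τ (yᴴ) * x - τ (yᴴ) * τ x := by noncomm_ring
    rw [this, f1, f2, f3, f4]
    abel
  have e2 : (y - τ y)ᴴ = yᴴ - τ (yᴴ) := by rw [conjTranspose_sub, D.inv.star]
  refine ⟨e1, ?_, ?_, ?_, ?_, ?_⟩
  · rw [← e1, ← e2]
    exact D.br _ hx.1 _ (D.st _ hy.1)
  · rw [D.inv.mul, mul_sub, ← mul_assoc, ← mul_assoc, hx.2.1, a3, zero_mul, zero_mul, sub_zero]
  · rw [D.inv.mul, sub_mul, mul_assoc, mul_assoc, a1, b1, mul_zero, mul_zero, sub_zero]
  · rw [D.inv.mul, mul_sub, ← mul_assoc, ← mul_assoc, a2, b2]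
  · rw [D.inv.mul, sub_mul, mul_assoc, mul_assoc, hx.2.2, a4]

end Dat

namespace UB27

variable {e : Matrix n n ℂ} {d : ℕ} {u : Fin d → Matrix n n ℂ}
variable (D : Dat τ L h E Λ) (T : Three27 E) (P : MinB27 L h e) (U : UB27 L h E e u)
include D T P U

lemma u_E0 (i : Fin d) : (u i)ᴴ * E 0 = 0 := by
  have := congrArg conjTranspose (D.BB_left27 T (U.mem i))
  rwa [conjTranspose_mul, D.spec.star, conjTranspose_zero] at this

lemma u_ne (i : Fin d) : u i ≠ 0 := by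
  intro h0
  apply P.ne
  have h1 := U.orth i i
  rw [if_pos rfl, h0, mul_zero] at h1
  exact h1.symm

/-- the basic relation -/
lemma rel {z w : Matrix n n ℂ} (hz : z ∈ XX τ L E) (hze : e * z = z) (hw : w ∈ XX τ L E)
    (hwe : e * w = w) (p r : Fin d) {i j : Fin d} (hij : i ≠ j) :
    ∃ c : ℂ, (if i = p then if r = j then z * wᴴ else 0 else 0) -
      (τ (u r) * u i)ᴴ * τ (z * wᴴ) * (τ (u p) * u j) = c • e := by
  have hx := D.mul_XX27 T hz (U.mem p)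
  have hy := D.mul_XX27 T hw (U.mem r)
  obtain ⟨_, k2, k3, k4, k5, k6⟩ := D.odd_bracket27 hx hy
  have hcomm : E 0 * ((u p * z * (u r * w)ᴴ - τ (u p * z * (u r * w)ᴴ)) -
      ((u r * w)ᴴ * (u p * z) - τ ((u r * w)ᴴ * (u p * z)))) =
      ((u p * z * (u r * w)ᴴ - τ (u p * z * (u r * w)ᴴ)) -
      ((u r * w)ᴴ * (u p * z) - τ ((u r * w)ᴴ * (u p * z)))) * E 0 := by
    rw [mul_sub, sub_mul, k3, k4, k5, k6]
  obtain ⟨c, hc⟩ := U.off D T P (fun b hb => D.even_bracket27 T k2 hcomm hb) hij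
  refine ⟨c, ?_⟩
  rw [← hc, mul_sub, sub_mul]
  have e1 : (u i)ᴴ * ((u r * w)ᴴ * (u p * z) - τ ((u r * w)ᴴ * (u p * z))) * u j = 0 := by
    rw [← k5, ← mul_assoc, U.u_E0 D T P, zero_mul, zero_mul]
  rw [e1, sub_zero, mul_sub, sub_mul]
  congr 1
  · have e2 : (u i)ᴴ * (u p * z * (u r * w)ᴴ) * u j = ((u i)ᴴ * u p) * z * (wᴴ * ((u r)ᴴ * u j)) := by
      rw [conjTranspose_mul]
      noncomm_ring
    have e3 : wᴴ * e = wᴴ := by
      have := congrArg conjTranspose hwe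
      rwa [conjTranspose_mul, P.star] at this
    rw [e2, U.orth, U.orth]
    split_ifs with h1 h2
    · rw [hze, e3]
    · rw [mul_zero, mul_zero]
    · rw [zero_mul, zero_mul]
    · rw [zero_mul, zero_mul]
  · have e4 : τ (u p * z * (u r * w)ᴴ) = (τ (u r))ᴴ * (τ (wᴴ) * τ z) * τ (u p) := by
      rw [conjTranspose_mul, D.inv.mul, D.inv.mul (u p) z, D.inv.mul wᴴ (u r)ᴴ, D.inv.star (u r)]
      noncomm_ring
    rw [e4, D.inv.mul z, conjTranspose_mul]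
    noncomm_ring

/-- for every `j` some `τ (u p) u j` is not zero -/
lemma exists_tau (j : Fin d) : ∃ p, τ (u p) * u j ≠ 0 := by
  by_contra hcon
  push Not at hcon
  apply U.u_ne D T P j
  have h1 : τ (∑ p, u p * (u p)ᴴ) = 1 - E 0 := by
    rw [U.sum, map_sub, D.inv.one, D.tauE0]
  have h2 : (1 - E 0) * u j = 0 := by
    rw [← h1, map_sum, Finset.sum_mul]
    refine Finset.sum_eq_zero fun p _ => ?_
    rw [D.inv.mul, mul_assoc, hcon, mul_zero]
  rwa [sub_mul, one_mul, D.BB_left27 T (U.mem j), sub_zero] at h2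

/-- the intertwiner between `e` and `τ e` -/
lemma exists_v0 [NeZero d] : ∃ v₀ : Matrix n n ℂ, ∃ t : Fin d → Fin d → ℂ,
    v₀ * e = v₀ ∧ ∀ p j, τ (u p) * u j = t p j • v₀ := by
  obtain ⟨p, hp⟩ := U.exists_tau D T P 0
  have hmem : ∀ p j, τ (u p) * u j ∈ BB27 L h := fun p j => mul_mem (D.BB_tau27 (U.mem p)) (U.mem j)
  have hl : ∀ p j, τ e * (τ (u p) * u j) = τ (u p) * u j := by
    intro p j
    rw [← mul_assoc, ← D.inv.mul, U.right]
  have hr : ∀ p j, τ (u p) * u j * e = τ (u p) * u j := by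
    intro p j
    rw [mul_assoc, U.right]
  have hτe : (τ e)ᴴ = τ e := by rw [← D.inv.star, P.star]
  set v₀ := τ (u p) * u 0 with hv₀
  have hv : v₀ ∈ BB27 L h := hmem p 0
  have hv1 : τ e * v₀ = v₀ := hl p 0
  have hv2 : v₀ * e = v₀ := hr p 0
  clear_value v₀
  have hsc : ∀ y ∈ BB27 L h, y * e = y → ∃ c : ℂ, v₀ᴴ * y = c • e := by
    intro y hy hy2
    obtain ⟨c, hc⟩ := P.min (v₀ᴴ * y) (mul_mem (D.BB_star27 hv) hy)
    refine ⟨c, ?_⟩
    rw [← hc]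
    have h1 : e * v₀ᴴ = v₀ᴴ := by
      have := congrArg conjTranspose hv2
      rwa [conjTranspose_mul, P.star] at this
    rw [← mul_assoc, h1, mul_assoc, hy2]
  obtain ⟨c₀, hc₀⟩ := hsc v₀ hv hv2
  have hc0 : c₀ ≠ 0 := by
    rintro rfl
    rw [zero_smul] at hc₀
    exact hp (eq_zero_of_mul hc₀)
  obtain ⟨c₁, hc₁⟩ : ∃ c₁ : ℂ, v₀ * v₀ᴴ = c₁ • τ e := by
    obtain ⟨c, hc⟩ := P.min (τ (v₀ * v₀ᴴ)) (D.BB_tau27 (mul_mem hv (D.BB_star27 hv)))
    refine ⟨c, ?_⟩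
    have := congrArg τ hc
    rw [D.inv.mul, D.inv.mul, D.inv.inv, map_smul] at this
    rw [← this]
    have h1 : v₀ᴴ * τ e = v₀ᴴ := by
      have := congrArg conjTranspose hv1
      rwa [conjTranspose_mul, hτe] at this
    rw [mul_assoc v₀, h1, ← mul_assoc, hv1]
  have hc1 : c₁ ≠ 0 := by
    rintro rfl
    rw [zero_smul] at hc₁
    have h2 := Dat.eq_zero_of_mul_star hc₁
    exact hp h2
  have hall : ∀ p j, ∃ c : ℂ, τ (u p) * u j = c • v₀ := by
    intro p j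
    obtain ⟨c, hc⟩ := hsc _ (hmem p j) (hr p j)
    refine ⟨c₁⁻¹ * c, ?_⟩
    have h1 : v₀ * (v₀ᴴ * (τ (u p) * u j)) = c₁ • (τ (u p) * u j) := by
      rw [← mul_assoc, hc₁, smul_mul_assoc, hl]
    rw [hc, mul_smul_comm, hv2] at h1
    calc τ (u p) * u j = c₁⁻¹ • (c₁ • (τ (u p) * u j)) := by
          rw [smul_smul, inv_mul_cancel₀ hc1, one_smul]
      _ = (c₁⁻¹ * c) • v₀ := by rw [← h1, smul_smul]
  choose t ht using hall
  exact ⟨v₀, t, hv2, ht⟩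

/-- **Scalar products.** If the algebra has at least three units, then all `z wᴴ`, `z, w` off-diagonal elements
with values in the range of `e`, are multiples of `e`. -/
theorem scal (hd : 3 ≤ d) {z w : Matrix n n ℂ} (hz : z ∈ XX τ L E) (hze : e * z = z) (hw : w ∈ XX τ L E)
    (hwe : e * w = w) : ∃ c : ℂ, z * wᴴ = c • e := by
  have : NeZero d := ⟨by omega⟩
  obtain ⟨v₀, t, hv, ht⟩ := U.exists_v0 D T P
  have key : ∀ (p r : Fin d) {i j : Fin d}, i ≠ j → ∃ c : ℂ,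
      (if i = p then if r = j then z * wᴴ else 0 else 0) -
        (star (t r i) * t p j) • (v₀ᴴ * τ (z * wᴴ) * v₀) = c • e := by
    intro p r i j hij
    obtain ⟨c, hc⟩ := U.rel D T P hz hze hw hwe p r hij
    refine ⟨c, ?_⟩
    rw [← hc, ht, ht, conjTranspose_smul, smul_mul_assoc, smul_mul_assoc, mul_smul_comm, smul_smul]
  have htne : ∀ j, ∃ p, t p j ≠ 0 := by
    intro j
    obtain ⟨p, hp⟩ := U.exists_tau D T P j
    refine ⟨p, fun h0 => hp ?_⟩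
    rw [ht, h0, zero_smul]
  -- the second term is a scalar
  obtain ⟨κ, hκ⟩ : ∃ c : ℂ, v₀ᴴ * τ (z * wᴴ) * v₀ = c • e := by
    obtain ⟨r, hr⟩ := htne 0
    obtain ⟨j, hj⟩ : ∃ j : Fin d, j ∉ ({0, r} : Finset (Fin d)) := by
      by_contra hcon
      push Not at hcon
      have h1 : (Finset.univ : Finset (Fin d)) ⊆ {0, r} := fun j _ => hcon j
      have h2 := Finset.card_le_card h1
      have h3 := Finset.card_le_two (a := (0 : Fin d)) (b := r)
      rw [Finset.card_univ, Fintype.card_fin] at h2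
      omega
    simp only [Finset.mem_insert, Finset.mem_singleton, not_or] at hj
    obtain ⟨p, hp⟩ := htne j
    obtain ⟨c, hc⟩ := key p r (i := 0) (j := j) (Ne.symm hj.1)
    rw [if_neg (Ne.symm hj.2), ite_self, zero_sub] at hc
    have hne : star (t r 0) * t p j ≠ 0 := mul_ne_zero (star_ne_zero.mpr hr) hp
    refine ⟨-((star (t r 0) * t p j)⁻¹ * c), ?_⟩
    have h1 : (star (t r 0) * t p j) • (v₀ᴴ * τ (z * wᴴ) * v₀) = -(c • e) := by rw [← hc, neg_neg]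
    calc v₀ᴴ * τ (z * wᴴ) * v₀ = (star (t r 0) * t p j)⁻¹ •
          ((star (t r 0) * t p j) • (v₀ᴴ * τ (z * wᴴ) * v₀)) := by
            rw [smul_smul, inv_mul_cancel₀ hne, one_smul]
      _ = -((star (t r 0) * t p j)⁻¹ * c) • e := by rw [h1, smul_neg, smul_smul, neg_smul]
  have h01 : (⟨0, by omega⟩ : Fin d) ≠ ⟨1, by omega⟩ := by
    intro h0
    have := congrArg Fin.val h0
    simp at this
  obtain ⟨c, hc⟩ := key ⟨0, by omega⟩ ⟨1, by omega⟩ h01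
  rw [if_pos rfl, if_pos rfl, hκ, smul_smul] at hc
  refine ⟨c + star (t ⟨1, by omega⟩ ⟨0, by omega⟩) * t ⟨0, by omega⟩ ⟨1, by omega⟩ * κ, ?_⟩
  rw [add_smul, ← hc, sub_add_cancel]

end UB27

end MH
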