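import Pool.Agent.Helper27.GP.Full

/-!
The case of at most two units: the elements of degree two form a line.
-/

open Matrix

namespace MH

variable {n : Type*} [Fintype n] [DecidableEq n]
variable {h : Matrix n n ℂ} {E : ℝ → Matrix n n ℂ} {Λ : Finset ℝ}
variable {τ : Matrix n n ℂ →ₗ[ℂ] Matrix n n ℂ} {L : Submodule ℂ (Matrix n n ℂ)}

/-- elements of minimal rank -/
theorem min_rank_key27 (A : NonUnitalSubalgebra ℂ (Matrix n n ℂ)) {a : Matrix n n ℂ} (ha : a ∈ A)
    (ha0 : a ≠ 0) (hmin : ∀ b ∈ A, b ≠ 0 → a.rank ≤ b.rank) {y : Matrix n n ℂ} (hy : y ∈ A) :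
    ∃ t : ℂ, a * y * a = t • a := by
  classical
  let R : Submodule ℂ (n → ℂ) := LinearMap.range (Matrix.toLin' a)
  have hst : ∀ v ∈ R, Matrix.toLin' (a * y) v ∈ R := by
    intro v _
    rw [Matrix.toLin'_mul]
    exact LinearMap.mem_range_self _ _
  let f : R →ₗ[ℂ] R := (Matrix.toLin' (a * y)).restrict hst
  have hRne : Nontrivial R := by
    rw [Submodule.nontrivial_iff_ne_bot]
    intro h0
    apply ha0
    have : Matrix.toLin' a = 0 := LinearMap.range_eq_bot.mp h0
    exact Matrix.toLin'.injective (by rw [this, map_zero])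
  obtain ⟨t, ht⟩ := Module.End.exists_eigenvalue f
  obtain ⟨v, hv⟩ := ht.exists_hasEigenvector
  refine ⟨t, ?_⟩
  by_contra hne
  have hne' : a * y * a - t • a ≠ 0 := fun h' => hne (sub_eq_zero.mp h')
  have hmem : a * y * a - t • a ∈ A :=
    sub_mem (mul_mem (mul_mem ha hy) ha) (SMulMemClass.smul_mem t ha)
  have hle := hmin _ hmem hne'
  obtain ⟨w, hw⟩ := v.2
  have hvw : a *ᵥ w = (v : n → ℂ) := by rw [← hw, Matrix.toLin'_apply]
  have hv0 : (v : n → ℂ) ≠ 0 := fun h0 => hv.2 (Subtype.ext h0)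
  have hfv : (a * y) *ᵥ (v : n → ℂ) = t • (v : n → ℂ) := by
    have h1 := hv.apply_eq_smul
    have h2 := congrArg Subtype.val h1
    simpa [f] using h2
  have hker : LinearMap.ker (Matrix.toLin' a) <
      LinearMap.ker (Matrix.toLin' (a * y * a - t • a)) := by
    rw [lt_iff_le_and_ne]
    constructor
    · intro u hu
      rw [LinearMap.mem_ker, Matrix.toLin'_apply] at hu ⊢
      rw [Matrix.sub_mulVec, ← Matrix.mulVec_mulVec, hu, Matrix.smul_mulVec, hu]
      simp
    · intro heq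
      have : w ∈ LinearMap.ker (Matrix.toLin' a) := by
        rw [heq, LinearMap.mem_ker, Matrix.toLin'_apply, Matrix.sub_mulVec,
          ← Matrix.mulVec_mulVec, hvw, hfv, Matrix.smul_mulVec, hvw, sub_self]
      rw [LinearMap.mem_ker, Matrix.toLin'_apply, hvw] at this
      exact hv0 this
  have h1 := Submodule.finrank_lt_finrank_of_lt hker
  have h2 := LinearMap.finrank_range_add_finrank_ker (Matrix.toLin' a)
  have h3 := LinearMap.finrank_range_add_finrank_ker (Matrix.toLin' (a * y * a - t • a))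
  have h4 : a.rank = Module.finrank ℂ (LinearMap.range (Matrix.toLin' a)) := by
    rw [Matrix.rank_eq_finrank_range_toLin a (Pi.basisFun ℂ n) (Pi.basisFun ℂ n),
      Matrix.toLin_eq_toLin']
  have h5 : (a * y * a - t • a).rank =
      Module.finrank ℂ (LinearMap.range (Matrix.toLin' (a * y * a - t • a))) := by
    rw [Matrix.rank_eq_finrank_range_toLin _ (Pi.basisFun ℂ n) (Pi.basisFun ℂ n),
      Matrix.toLin_eq_toLin']
  omega

/-- a matrix of full rank on the range of an idempotent is injective there -/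
lemma inj_of_rank27 {A e : Matrix n n ℂ} (hA : A * e = A) (hr : A.rank = e.rank)
    {v : n → ℂ} (hv : A *ᵥ v = 0) : e *ᵥ v = 0 := by
  have h1 : LinearMap.ker (Matrix.toLin' e) ≤ LinearMap.ker (Matrix.toLin' A) := by
    intro u hu
    rw [LinearMap.mem_ker, Matrix.toLin'_apply] at hu ⊢
    rw [← hA, ← Matrix.mulVec_mulVec, hu, Matrix.mulVec_zero]
  have h2 := LinearMap.finrank_range_add_finrank_ker (Matrix.toLin' A)
  have h3 := LinearMap.finrank_range_add_finrank_ker (Matrix.toLin' e)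
  have h4 : A.rank = Module.finrank ℂ (LinearMap.range (Matrix.toLin' A)) := by
    rw [Matrix.rank_eq_finrank_range_toLin A (Pi.basisFun ℂ n) (Pi.basisFun ℂ n),
      Matrix.toLin_eq_toLin']
  have h5 : e.rank = Module.finrank ℂ (LinearMap.range (Matrix.toLin' e)) := by
    rw [Matrix.rank_eq_finrank_range_toLin e (Pi.basisFun ℂ n) (Pi.basisFun ℂ n),
      Matrix.toLin_eq_toLin']
  have h6 : LinearMap.ker (Matrix.toLin' e) = LinearMap.ker (Matrix.toLin' A) :=
    Submodule.eq_of_le_of_finrank_eq h1 (by omega)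
  have h7 : v ∈ LinearMap.ker (Matrix.toLin' e) := by
    rw [h6, LinearMap.mem_ker, Matrix.toLin'_apply, hv]
  rwa [LinearMap.mem_ker, Matrix.toLin'_apply] at h7

open scoped ComplexOrder in
lemma rank_star27 (x : Matrix n n ℂ) : xᴴ.rank = x.rank := Matrix.rank_conjTranspose x

/-- A nondegenerate alternating form lives on an even dimensional space. -/
lemma even_finrank27 {V : Type*} [AddCommGroup V] [Module ℂ V] [FiniteDimensional ℂ V]
    {ω : LinearMap.BilinForm ℂ V} (hω : ω.Nondegenerate) (halt : ω.IsAlt) : Even (Module.finrank ℂ V) := by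
  classical
  let b := Module.finBasis ℂ V
  have h1 : (LinearMap.BilinForm.toMatrix b ω).transpose =
      -(LinearMap.BilinForm.toMatrix b ω) := by
    ext i j
    rw [Matrix.transpose_apply, Matrix.neg_apply, LinearMap.BilinForm.toMatrix_apply,
      LinearMap.BilinForm.toMatrix_apply]
    exact (LinearMap.IsAlt.neg halt (b i) (b j)).symm
  have h2 : (LinearMap.BilinForm.toMatrix b ω).det ≠ 0 :=
    (LinearMap.BilinForm.nondegenerate_iff_det_ne_zero b).mp hω
  by_contra hodd
  rw [Nat.not_even_iff_odd] at hodd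
  have h3 := congrArg Matrix.det h1
  rw [Matrix.det_transpose, Matrix.det_neg, Fintype.card_fin, hodd.neg_one_pow] at h3
  apply h2
  have h4 : (2 : ℂ) * (LinearMap.BilinForm.toMatrix b ω).det = 0 := by linear_combination h3
  exact (mul_eq_zero.mp h4).resolve_left two_ne_zero

/-- a skew matrix of full rank on the range of an idempotent: the rank is even -/
lemma even_rank27 {M e : Matrix n n ℂ} (he : e * e = e) (hM : M * e = M) (hr : M.rank = e.rank)
    (hs : Mᵀ = -M) : Even e.rank := by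
  classical
  have h5 : e.rank = Module.finrank ℂ (LinearMap.range (Matrix.toLin' e)) := by
    rw [Matrix.rank_eq_finrank_range_toLin e (Pi.basisFun ℂ n) (Pi.basisFun ℂ n),
      Matrix.toLin_eq_toLin']
  rw [h5]
  let R := LinearMap.range (Matrix.toLin' e)
  let ω : LinearMap.BilinForm ℂ R := (Matrix.toBilin' M).restrict R
  have hap : ∀ v w : R, ω v w = (v : n → ℂ) ⬝ᵥ (M *ᵥ (w : n → ℂ)) := by
    intro v w
    change Matrix.toBilin' M (v : n → ℂ) (w : n → ℂ) = _
    rw [Matrix.toBilin'_apply']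
  have hfix : ∀ v : R, e *ᵥ (v : n → ℂ) = v := by
    rintro ⟨v, u, hu⟩
    change e *ᵥ v = v
    rw [← hu, Matrix.toLin'_apply, Matrix.mulVec_mulVec, he]
  have hflip : ∀ v w : n → ℂ, v ⬝ᵥ (M *ᵥ w) = -(w ⬝ᵥ (M *ᵥ v)) := by
    intro v w
    rw [Matrix.dotProduct_mulVec, ← Matrix.mulVec_transpose, hs, Matrix.neg_mulVec, neg_dotProduct,
      dotProduct_comm]
  have hkey : ∀ v : R, (∀ w : R, (w : n → ℂ) ⬝ᵥ (M *ᵥ (v : n → ℂ)) = 0) → v = 0 := by
    intro v hv
    have h1 : M *ᵥ (v : n → ℂ) = 0 := by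
      have h2 : ∀ w : n → ℂ, w ⬝ᵥ (M *ᵥ (v : n → ℂ)) = 0 := by
        intro w
        rw [hflip, ← hM, ← Matrix.mulVec_mulVec, ← hflip]
        exact hv ⟨e *ᵥ w, w, by rw [Matrix.toLin'_apply]⟩
      ext i
      have h3 := h2 (Pi.single i 1)
      rwa [single_one_dotProduct] at h3
    have h2 := inj_of_rank27 hM hr h1
    rw [hfix] at h2
    exact Subtype.ext h2
  apply even_finrank27 (ω := ω)
  · refine ⟨fun v hv => hkey v fun w => ?_, fun v hv => hkey v fun w => ?_⟩
    · have h1 := hv w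
      rw [hap, hflip] at h1
      exact neg_eq_zero.mp h1
    · have h1 := hv w
      rwa [hap] at h1
  · intro v
    rw [hap]
    have h1 := hflip (v : n → ℂ) (v : n → ℂ)
    exact self_eq_neg.mp h1

namespace UB27

variable {e : Matrix n n ℂ} {d : ℕ} {u : Fin d → Matrix n n ℂ}
variable (D : Dat τ L h E Λ) (T : Three27 E) (P : MinB27 L h e) (U : UB27 L h E e u)
include D T P U

/-- The rank of the minimal projection is the minimal rank. -/
lemma rank_le {a : Matrix n n ℂ} (ha : a ∈ BB27 L h) (ha0 : a ≠ 0) : e.rank ≤ a.rank := by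
  obtain ⟨i, j, hij⟩ : ∃ i j, (u i)ᴴ * a * u j ≠ 0 := by
    by_contra hcon
    push Not at hcon
    apply ha0
    rw [U.expand D T P (D.BB_left27 T ha)]
    refine Finset.sum_eq_zero fun i _ => ?_
    have h3 : (u i)ᴴ * a * E 0 = 0 := by rw [mul_assoc, D.BB_right27 T ha, mul_zero]
    rw [U.expand_right D T P h3, Finset.sum_eq_zero, mul_zero]
    intro j _
    rw [hcon, zero_mul]
  obtain ⟨c, hc⟩ := U.entry D P ha i j
  have hc0 : c ≠ 0 := by
    rintro rfl
    rw [zero_smul] at hc
    exact hij hc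
  have h1 : e = c⁻¹ • ((u i)ᴴ * a * u j) := by
    rw [hc, smul_smul, inv_mul_cancel₀ hc0, one_smul]
  calc e.rank = (c⁻¹ • ((u i)ᴴ * a * u j)).rank := by rw [← h1]
    _ = ((c⁻¹ • (u i)ᴴ) * a * u j).rank := by rw [smul_mul_assoc, smul_mul_assoc]
    _ ≤ ((c⁻¹ • (u i)ᴴ) * a).rank := Matrix.rank_mul_le_left _ _
    _ ≤ a.rank := Matrix.rank_mul_le_right _ _

/-- The case of at most two units. -/
theorem two_case (hd : d ≤ 2) (hr : 2 * (E 1).rank = d * e.rank) (h2 : Ld L h 2 ≠ ⊥)
    {G Gi : Matrix n n ℂ} (hG : Gᵀ = G) (hGi : G * Gi = 1) (hGi' : Gi * G = 1)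
    (hτ : ∀ x, τ x = Gi * xᵀ * G) :
    Module.finrank ℂ (Ld L h 2) = 1 ∧ Even (E 1).rank := by
  obtain ⟨y, hy, hy0⟩ := Submodule.exists_mem_ne_zero_of_ne_bot h2
  have hEE : ∀ μ, E μ * E μ = E μ := fun μ => by rw [D.spec.mul, if_pos rfl]
  have hrk : ∀ a ∈ Ld L h 2, a.rank ≤ (E 1).rank := by
    intro a ha
    rw [← D.Ld227 T ha, mul_assoc]
    exact Matrix.rank_mul_le_left _ _
  have hpos : 0 < (E 1).rank := by
    have h3 := U.rank_le D T P (D.mem_BB227 hy) hy0
    have h4 := hrk y hy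
    have h5 : 0 < e.rank := by
      rw [Nat.pos_iff_ne_zero]
      intro h0
      have h6 := rank_eq_trace P.idem
      have h7 := trace_pos P.ne
      rw [P.star, P.idem, ← h6, h0] at h7
      simp at h7
    omega
  have hee : e.rank = (E 1).rank := by
    have h3 := U.rank_le D T P (D.mem_BB227 hy) hy0
    have h4 := hrk y hy
    interval_cases d
    · omega
    · omega
    · omega
  have hE1m : (E (-1)).rank = (E 1).rank := by
    have h3 : ((E (-1)).rank : ℂ) = ((E 1).rank : ℂ) := by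
      rw [rank_eq_trace (hEE _), rank_eq_trace (hEE _), ← D.tauE, D.inv.tr]
    exact_mod_cast h3
  have hfull : ∀ a ∈ Ld L h 2, a ≠ 0 → a.rank = (E 1).rank := by
    intro a ha ha0
    have h3 := U.rank_le D T P (D.mem_BB227 ha) ha0
    have h4 := hrk a ha
    omega
  have hyr : y * E (-1) = y := by
    conv_lhs => rw [← D.Ld227 T hy]
    rw [mul_assoc, hEE, D.Ld227 T hy]
  have hyl : E 1 * y = y := by
    conv_lhs => rw [← D.Ld227 T hy]
    rw [← mul_assoc, ← mul_assoc, hEE, D.Ld227 T hy]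
  constructor
  · -- a line
    have hmin : ∀ b ∈ BB27 L h, b ≠ 0 → y.rank ≤ b.rank := by
      intro b hb hb0
      rw [hfull y hy hy0, ← hee]
      exact U.rank_le D T P hb hb0
    have hys : yᴴ ∈ Ld L h (-2) := D.Ld_star27 hy
    obtain ⟨t₀, ht₀⟩ := min_rank_key27 (BB27 L h) (D.mem_BB227 hy) hy0 hmin (D.BB_star27 (D.mem_BB227 hy))
    have ht0 : t₀ ≠ 0 := by
      rintro rfl
      rw [zero_smul] at ht₀
      apply hy0
      apply eq_zero_of_mul
      apply eq_zero_of_mul
      rw [conjTranspose_mul, conjTranspose_conjTranspose]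
      have : yᴴ * y * (yᴴ * y) = yᴴ * (y * yᴴ * y) := by noncomm_ring
      rw [this, ht₀, mul_zero]
    rw [finrank_eq_one_iff']
    refine ⟨⟨y, hy⟩, fun h0 => hy0 (congrArg Subtype.val h0), ?_⟩
    rintro ⟨w, hw⟩
    obtain ⟨t, ht⟩ := min_rank_key27 (BB27 L h) (D.mem_BB227 hy) hy0 hmin (D.BB_star27 (D.mem_BB227 hw))
    set x : Matrix n n ℂ := w - star (t₀⁻¹ * t) • y with hx
    have hxL : x ∈ Ld L h 2 := (Ld L h 2).sub_mem hw ((Ld L h 2).smul_mem _ hy)
    have hxs : xᴴ = wᴴ - (t₀⁻¹ * t) • yᴴ := by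
      rw [hx, conjTranspose_sub, conjTranspose_smul, star_star]
    have hz : y * xᴴ * y = 0 := by
      rw [hxs, mul_sub, sub_mul, ht, mul_smul_comm, smul_mul_assoc, ht₀, smul_smul, mul_right_comm,
        inv_mul_cancel₀ ht0, one_mul, sub_self]
    have hx0 : x = 0 := by
      by_contra hne
      have hxl : E 1 * x = x := by
        conv_lhs => rw [← D.Ld227 T hxL]
        rw [← mul_assoc, ← mul_assoc, hEE, D.Ld227 T hxL]
      have hxr : x * E (-1) = x := by
        conv_lhs => rw [← D.Ld227 T hxL]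
        rw [mul_assoc, hEE, D.Ld227 T hxL]
      have hxs1 : xᴴ * E 1 = xᴴ := by
        have := congrArg conjTranspose hxl
        rwa [conjTranspose_mul, D.spec.star] at this
      have hxs2 : E (-1) * xᴴ = xᴴ := by
        have := congrArg conjTranspose hxr
        rwa [conjTranspose_mul, D.spec.star] at this
      have hxsr : xᴴ.rank = (E 1).rank := by rw [rank_star27, hfull x hxL hne]
      apply hy0
      apply Dat.mat_ext
      intro v
      rw [zero_mulVec]
      have h3 : y *ᵥ (xᴴ *ᵥ (y *ᵥ v)) = 0 := by rw [mulVec_mulVec, mulVec_mulVec, hz, zero_mulVec]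
      have h4 := inj_of_rank27 hyr (by rw [hfull y hy hy0, hE1m]) h3
      rw [mulVec_mulVec, hxs2] at h4
      have h5 := inj_of_rank27 hxs1 hxsr h4
      rwa [mulVec_mulVec, hyl] at h5
    refine ⟨star (t₀⁻¹ * t), Subtype.ext ?_⟩
    change star (t₀⁻¹ * t) • y = w
    rw [hx, sub_eq_zero] at hx0
    exact hx0.symm
  · rw [← hE1m]
    have h3 : yᵀ * G = -(G * y) := by
      have h4 := D.sk y hy.1
      rw [hτ] at h4
      have h5 := congrArg (fun Y => G * Y) h4
      simp only [mul_neg] at h5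
      rw [← h5, ← mul_assoc, ← mul_assoc, hGi, one_mul]
    refine even_rank27 (M := G * y) (hEE _) (by rw [mul_assoc, hyr]) ?_ ?_
    · have h4 : (G * y).rank = y.rank := by
        apply le_antisymm (Matrix.rank_mul_le_right _ _)
        calc y.rank = (Gi * (G * y)).rank := by rw [← mul_assoc, hGi', one_mul]
          _ ≤ (G * y).rank := Matrix.rank_mul_le_right _ _
      rw [h4, hfull y hy hy0, hE1m]
    · rw [Matrix.transpose_mul, hG, h3]

end UB27

/-- **The gap theorem.** A simple irreducible Lie algebra `L` of matrices that are skew for a symmetric form, which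
contains `h` with the eigenvalues `1, 0, -1`, has no elements of degree two, or exactly a line of them (and the
multiplicity of the eigenvalue `1` is even), or it consists of all skew matrices. -/
theorem Dat.gap27 (D : Dat τ L h E Λ) (T : Three27 E)
    {G Gi : Matrix n n ℂ} (hG : Gᵀ = G) (hGi : G * Gi = 1) (hGi' : Gi * G = 1)
    (hτ : ∀ x, τ x = Gi * xᵀ * G)
    (hsmp : ∀ K ≤ L, (∀ X ∈ L, ∀ Y ∈ K, X * Y - Y * X ∈ K) → K = ⊥ ∨ K = L)
    (hE0 : E 0 ≠ 0) :
    Ld L h 2 = ⊥ ∨ (Module.finrank ℂ (Ld L h 2) = 1 ∧ Even (E 1).rank) ∨ ∀ X, τ X = -X → X ∈ L := by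
  by_cases h2 : Ld L h 2 = ⊥
  · exact Or.inl h2
  right
  have hE1 : E 0 ≠ 1 := by
    intro h0
    apply h2
    rw [eq_bot_iff]
    intro x hx
    rw [Submodule.mem_bot]
    have := (D.gen_zero27 T (Or.inl hx)).2.1
    rwa [h0, one_mul] at this
  obtain ⟨e, P⟩ := D.exists_minB27 T h2
  obtain ⟨d, u, U, hr⟩ := D.exists_units27 T P h2
  by_cases hd : d ≤ 2
  · exact Or.inl (U.two_case D T P hd hr h2 hG hGi hGi' hτ)
  · right
    intro X hX
    exact U.full_of_rank_one D T P (by omega) hE0 hE1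
      (U.rank_one D T P (by omega) h2 hsmp (D.OO_ne27 T hE0 hE1)) hX

end MH
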