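import Pool.Agent.Helper27.GP.Irr

/-!
Matrix units of the algebra generated by the elements of degree `2` and `-2`; the scalar products
of the off-diagonal part.
-/

open Matrix

namespace MH

variable {n : Type*} [Fintype n] [DecidableEq n]
variable {h : Matrix n n ℂ} {E : ℝ → Matrix n n ℂ} {Λ : Finset ℝ}
variable {τ : Matrix n n ℂ →ₗ[ℂ] Matrix n n ℂ} {L : Submodule ℂ (Matrix n n ℂ)}

/-- A minimal projection of the algebra `BB27 L h`. -/
structure MinB27 (L : Submodule ℂ (Matrix n n ℂ)) (h : Matrix n n ℂ) (e : Matrix n n ℂ) :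
    Prop where
  mem : e ∈ BB27 L h
  idem : e * e = e
  star : eᴴ = e
  ne : e ≠ 0
  min : ∀ y ∈ BB27 L h, ∃ c : ℂ, e * y * e = c • e

/-- The left ideal `B e`. -/
def NB27 (L : Submodule ℂ (Matrix n n ℂ)) (h : Matrix n n ℂ) (e : Matrix n n ℂ) :
    Submodule ℂ (Matrix n n ℂ) where
  carrier := {a | a ∈ BB27 L h ∧ a * e = a}
  add_mem' := by
    rintro a b ⟨ha, ha'⟩ ⟨hb, hb'⟩
    exact ⟨add_mem ha hb, by rw [add_mul, ha', hb']⟩
  zero_mem' := ⟨zero_mem _, by simp⟩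
  smul_mem' := by
    rintro c a ⟨ha, ha'⟩
    exact ⟨SMulMemClass.smul_mem c ha, by rw [smul_mul_assoc, ha']⟩

/-- Units for `e`. -/
structure UB27 (L : Submodule ℂ (Matrix n n ℂ)) (h : Matrix n n ℂ) (E : ℝ → Matrix n n ℂ) (e : Matrix n n ℂ)
    {d : ℕ} (u : Fin d → Matrix n n ℂ) : Prop where
  mem : ∀ i, u i ∈ BB27 L h
  right : ∀ i, u i * e = u i
  orth : ∀ i j, (u i)ᴴ * u j = if i = j then e else 0
  sum : ∑ i, u i * (u i)ᴴ = 1 - E 0

namespace Dat

variable (D : Dat τ L h E Λ) (T : Three27 E)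
include D T

theorem exists_minB27 (h2 : Ld L h 2 ≠ ⊥) : ∃ e, MinB27 L h e := by
  obtain ⟨k, hk, hk0⟩ := Submodule.exists_mem_ne_zero_of_ne_bot h2
  obtain ⟨e, h1, h2, h3, h4, h5⟩ := exists_min_of27 (BB27 L h) (fun a ha => D.BB_star27 ha) (D.mem_BB227 hk) hk0
  exact ⟨e, h1, h2, h3, h4, h5⟩

lemma idP27 : (1 - E 0) * (1 - E 0) = 1 - E 0 := by
  have := D.E00
  rw [mul_sub, sub_mul, sub_mul, one_mul, mul_one, one_mul, this]
  abel

lemma rankP27 : (1 - E 0 : Matrix n n ℂ).rank = 2 * (E 1).rank := by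
  have e1 : (1 - E 0 : Matrix n n ℂ) = E 1 + E (-1) := by
    rw [← D.sum327 T]
    abel
  have hEE : ∀ μ, E μ * E μ = E μ := fun μ => by rw [D.spec.mul, if_pos rfl]
  have h1 : ((1 - E 0 : Matrix n n ℂ).rank : ℂ) = (E 1).trace + (E (-1)).trace := by
    rw [rank_eq_trace (D.idP27 T), e1, trace_add]
  have h3 : (E (-1)).trace = (E 1).trace := by rw [← D.tauE, D.inv.tr]
  rw [h3, ← rank_eq_trace (hEE 1), ← two_mul] at h1
  exact_mod_cast h1

variable {e : Matrix n n ℂ} (P : MinB27 L h e)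
include P

/-- Matrix units exist. -/
theorem exists_units27 (h2 : Ld L h 2 ≠ ⊥) :
    ∃ (d : ℕ) (u : Fin d → Matrix n n ℂ), UB27 L h E e u ∧ 2 * (E 1).rank = d * e.rank := by
  have hrel : ∀ m ∈ NB27 L h e, ∀ m' ∈ NB27 L h e, ∃ c : ℂ, mᴴ * m' = c • e := by
    intro m hm m' hm'
    obtain ⟨c, hc⟩ := P.min (mᴴ * m') (mul_mem (D.BB_star27 hm.1) hm'.1)
    refine ⟨c, ?_⟩
    rw [← hc]
    have h1 : e * mᴴ = mᴴ := by
      have := congrArg conjTranspose hm.2
      rwa [conjTranspose_mul, P.star] at this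
    rw [← mul_assoc, h1, mul_assoc, hm'.2]
  obtain ⟨u, hu, huu, hQ, htr⟩ := exists_onb_rel98 P.idem P.star P.ne (NB27 L h e) (fun m hm => hm.2) hrel
  -- the space B e V
  let W : Submodule ℂ (n → ℂ) := Submodule.span ℂ {w | ∃ a ∈ NB27 L h e, ∃ v : n → ℂ, w = a *ᵥ v}
  have hWmem : ∀ a ∈ NB27 L h e, ∀ v, a *ᵥ v ∈ W := fun a ha v => Submodule.subset_span ⟨a, ha, v, rfl⟩
  have hfix : ∀ w ∈ W, (∑ i, u i * (u i)ᴴ) *ᵥ w = w := by
    intro w hw
    induction hw using Submodule.span_induction with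
    | mem w hw =>
      obtain ⟨a, ha, v, rfl⟩ := hw
      rw [mulVec_mulVec, hQ a ha]
    | zero => simp
    | add u v _ _ hu hv => rw [mulVec_add, hu, hv]
    | smul c u _ hu => rw [mulVec_smul, hu]
  have hE0 : ∀ w ∈ W, E 0 *ᵥ w = 0 := by
    intro w hw
    induction hw using Submodule.span_induction with
    | mem w hw =>
      obtain ⟨a, ha, v, rfl⟩ := hw
      rw [mulVec_mulVec, D.BB_left27 T ha.1, zero_mulVec]
    | zero => simp
    | add u v _ _ hu hv => rw [mulVec_add, hu, hv, add_zero]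
    | smul c u _ hu => rw [mulVec_smul, hu, smul_zero]
  have hW0 : W ≠ ⊥ := by
    intro h0
    apply P.ne
    apply mat_ext
    intro v
    have := hWmem e ⟨P.mem, P.idem⟩ v
    rw [h0, Submodule.mem_bot] at this
    rw [this, zero_mulVec]
  have hBW : ∀ b ∈ BB27 L h, ∀ w ∈ W, b *ᵥ w ∈ W := by
    intro b hb w hw
    induction hw using Submodule.span_induction with
    | mem w hw =>
      obtain ⟨a, ha, v, rfl⟩ := hw
      rw [mulVec_mulVec]
      exact hWmem _ ⟨mul_mem hb ha.1, by rw [mul_assoc, ha.2]⟩ v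
    | zero => simp
    | add u v _ _ hu hv => rw [mulVec_add]; exact W.add_mem hu hv
    | smul c u _ hu => rw [mulVec_smul]; exact W.smul_mem c hu
  have h0W : ∀ x ∈ Ld L h 0, ∀ w ∈ W, x *ᵥ w ∈ W := by
    intro x hx w hw
    induction hw using Submodule.span_induction with
    | mem w hw =>
      obtain ⟨a, ha, v, rfl⟩ := hw
      have e1 : x * a = (x * a - a * x) * e + a * (x * e - e * x) + a * x := by
        have e2 : a * (e * x) = a * x := by rw [← mul_assoc, ha.2]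
        have e3 : x * a * e = x * a := by rw [mul_assoc, ha.2]
        rw [sub_mul, mul_sub, e2, e3]
        simp only [mul_assoc]
        abel
      rw [mulVec_mulVec, e1, add_mulVec, add_mulVec, ← mulVec_mulVec _ a, ← mulVec_mulVec _ a]
      refine W.add_mem (W.add_mem (hWmem _ ⟨mul_mem (D.BB_bracket27 hx ha.1) P.mem, ?_⟩ v)
        (hWmem a ha _)) (hWmem a ha _)
      rw [mul_assoc, P.idem]
    | zero => simp
    | add u v _ _ hu hv => rw [mulVec_add]; exact W.add_mem hu hv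
    | smul c u _ hu => rw [mulVec_smul]; exact W.smul_mem c hu
  have hall : ∀ v : n → ℂ, E 0 *ᵥ v = 0 → v ∈ W := fun v hv => D.irrP27 T h2 hW0 hE0 h0W
    (fun x hx => hBW x (D.mem_BB227 hx)) (fun x hx => hBW x (D.mem_BBm227 hx)) hv
  have hsum : ∑ i, u i * (u i)ᴴ = 1 - E 0 := by
    have k1 : (∑ i, u i * (u i)ᴴ) * E 0 = 0 := by
      rw [Finset.sum_mul]
      refine Finset.sum_eq_zero fun i _ => ?_
      have := congrArg conjTranspose (D.BB_left27 T (hu i).1)
      rw [conjTranspose_mul, D.spec.star, conjTranspose_zero] at this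
      rw [mul_assoc, this, mul_zero]
    have k2 : (∑ i, u i * (u i)ᴴ) * (1 - E 0) = 1 - E 0 := by
      apply mat_ext
      intro v
      rw [← mulVec_mulVec]
      apply hfix
      apply hall
      rw [mulVec_mulVec, mul_sub, mul_one, D.E00, sub_self, zero_mulVec]
    rw [← k2, mul_sub, mul_one, k1, sub_zero]
  refine ⟨_, u, ⟨fun i => (hu i).1, fun i => (hu i).2, huu, hsum⟩, ?_⟩
  rw [hsum, ← rank_eq_trace (D.idP27 T), ← rank_eq_trace P.idem, D.rankP27 T] at htr
  exact_mod_cast htr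

end Dat

namespace UB27

variable {e : Matrix n n ℂ} {d : ℕ} {u : Fin d → Matrix n n ℂ}
variable (D : Dat τ L h E Λ) (T : Three27 E) (P : MinB27 L h e) (U : UB27 L h E e u)
include U

lemma left (P : MinB27 L h e) (i : Fin d) : e * (u i)ᴴ = (u i)ᴴ := by
  have := congrArg conjTranspose (U.right i)
  rwa [conjTranspose_mul, P.star] at this

include D T P

/-- expansion of a matrix with respect to the units -/
lemma expand {x : Matrix n n ℂ} (h1 : E 0 * x = 0) : x = ∑ i, u i * ((u i)ᴴ * x) := by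
  simp_rw [← mul_assoc]
  rw [← Finset.sum_mul, U.sum, sub_mul, one_mul, h1, sub_zero]

lemma expand_right {x : Matrix n n ℂ} (h1 : x * E 0 = 0) : x = ∑ i, x * u i * (u i)ᴴ := by
  simp_rw [mul_assoc]
  rw [← Finset.mul_sum, U.sum, mul_sub, mul_one, h1, sub_zero]

/-- off-diagonal entries of an element that normalises the algebra are scalars -/
lemma off {x : Matrix n n ℂ} (hx : ∀ b ∈ BB27 L h, x * b - b * x ∈ BB27 L h) {i j : Fin d} (hij : i ≠ j) :
    ∃ c : ℂ, (u i)ᴴ * x * u j = c • e := by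
  have hb : u j * (u j)ᴴ ∈ BB27 L h := mul_mem (U.mem j) (D.BB_star27 (U.mem j))
  obtain ⟨c, hc⟩ := P.min ((u i)ᴴ * (x * (u j * (u j)ᴴ) - (u j * (u j)ᴴ) * x) * u j)
    (mul_mem (mul_mem (D.BB_star27 (U.mem i)) (hx _ hb)) (U.mem j))
  refine ⟨c, ?_⟩
  rw [← hc]
  have e1 : (u i)ᴴ * (x * (u j * (u j)ᴴ) - (u j * (u j)ᴴ) * x) * u j =
      (u i)ᴴ * x * u j * ((u j)ᴴ * u j) - ((u i)ᴴ * u j) * ((u j)ᴴ * x * u j) := by noncomm_ring
  rw [e1, U.orth, U.orth, if_pos rfl, if_neg hij, zero_mul, sub_zero]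
  have e2 : e * ((u i)ᴴ * x * u j * e) * e = (e * (u i)ᴴ) * x * (u j * e) * e * 1 := by
    noncomm_ring
  rw [e2, U.left P, mul_one, mul_assoc _ (u j * e) e, mul_assoc (u j) e e, P.idem, U.right]

omit T in
/-- elements of the algebra have scalar entries -/
lemma entry {a : Matrix n n ℂ} (ha : a ∈ BB27 L h) (i j : Fin d) : ∃ c : ℂ, (u i)ᴴ * a * u j = c • e := by
  obtain ⟨c, hc⟩ := P.min ((u i)ᴴ * a * u j) (mul_mem (mul_mem (D.BB_star27 (U.mem i)) ha) (U.mem j))
  refine ⟨c, ?_⟩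
  rw [← hc]
  have e2 : e * ((u i)ᴴ * a * u j) * e = (e * (u i)ᴴ) * a * (u j * e) := by noncomm_ring
  rw [e2, U.left P, U.right]

/-- a matrix with scalar entries is in the algebra -/
lemma mem_of {x : Matrix n n ℂ} (h1 : E 0 * x = 0) (h2 : x * E 0 = 0)
    (hc : ∀ i j, ∃ c : ℂ, (u i)ᴴ * x * u j = c • e) : x ∈ BB27 L h := by
  rw [U.expand D T P h1]
  refine sum_mem fun i _ => ?_
  have h3 : (u i)ᴴ * x * E 0 = 0 := by rw [mul_assoc, h2, mul_zero]
  rw [U.expand_right D T P h3, Finset.mul_sum]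
  refine sum_mem fun j _ => ?_
  obtain ⟨c, hc⟩ := hc i j
  rw [hc, smul_mul_assoc, mul_smul_comm, U.left P]
  exact SMulMemClass.smul_mem _ (mul_mem (U.mem i) (D.BB_star27 (U.mem j)))

end UB27

end MH
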